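import Pool.Agent.Lib.H16T.Defs

/-! Chunk C1 (M): existence of the canonical instrument. -/

namespace Pool.Agent.H16T

open Matrix Pool.Agent.H25A
open scoped ComplexOrder

variable {ι : Type*} [Fintype ι] [DecidableEq ι]

open scoped MatrixOrder in
/-- The positive square root: for `A ≥ 0` there is `B ≥ 0` with `B B = A`
(`Matrix.PosSemidef.sqrt` or `CFC.sqrt`), and `B` is positive definite if `A` is. -/
theorem exists_sqrt {A : Matrix ι ι ℂ} (hA : A.PosSemidef) :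
    ∃ B : Matrix ι ι ℂ, B.PosSemidef ∧ B * B = A ∧ (A.PosDef → B.PosDef) := by
  have h1 : CFC.sqrt A * CFC.sqrt A = A := CFC.sqrt_mul_sqrt_self A hA.nonneg
  have h2 : (CFC.sqrt A).PosSemidef := (CFC.sqrt_nonneg A).posSemidef
  refine ⟨CFC.sqrt A, h2, h1, fun hpd => ?_⟩
  rw [h2.posDef_iff_isUnit, Matrix.isUnit_iff_isUnit_det]
  have h3 := hpd.isUnit
  rw [Matrix.isUnit_iff_isUnit_det, ← h1, Matrix.det_mul] at h3
  exact isUnit_of_mul_isUnit_left h3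

private theorem c1_conj {X S Y F : Matrix ι ι ℂ} (hS : S.PosDef) (hX : S * S = X)
    (hY : Y * Y = X * F * X) :
    (S⁻¹ * Y * S⁻¹) * X * (S⁻¹ * Y * S⁻¹) = S * F * S := by
  have hdet : IsUnit S.det := (Matrix.isUnit_iff_isUnit_det S).1 hS.isUnit
  have h1 : S⁻¹ * S = 1 := Matrix.nonsing_inv_mul S hdet
  have h2 : S * S⁻¹ = 1 := Matrix.mul_nonsing_inv S hdet
  calc (S⁻¹ * Y * S⁻¹) * X * (S⁻¹ * Y * S⁻¹)
      = S⁻¹ * Y * (S⁻¹ * S) * (S * S⁻¹) * Y * S⁻¹ := by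
        rw [← hX]
        simp only [Matrix.mul_assoc]
    _ = S⁻¹ * (Y * Y) * S⁻¹ := by
        rw [h1, h2, Matrix.mul_one, Matrix.mul_one]
        simp only [Matrix.mul_assoc]
    _ = (S⁻¹ * S) * S * F * S * (S * S⁻¹) := by
        rw [hY, ← hX]
        simp only [Matrix.mul_assoc]
    _ = S * F * S := by
        rw [h1, h2, Matrix.mul_one, Matrix.one_mul]

/-- For `X > 0` with `S S = X`, `S > 0`, and `0 ≤ E ≤ 1` there are `Y1, Y0 ≥ 0` with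
`Y1^2 = X E X`, `Y0^2 = X (1 - E) X`, and `N_b = S⁻¹ Y_b S⁻¹` is an instrument for `X` with
`N1 X N1 = S E S`, `N0 X N0 = S (1 - E) S`.
PROOF. `exists_sqrt` for `X E X ≥ 0` and `X (1 - E) X ≥ 0` (conjugation of a positive
semidefinite matrix by the Hermitian `X`).  `N_b` is a conjugation of `Y_b ≥ 0` by the Hermitian
`S⁻¹`.  `N1 X N1 = S⁻¹ Y1 S⁻¹ S S S⁻¹ Y1 S⁻¹ = S⁻¹ Y1 Y1 S⁻¹ = S⁻¹ S S E S S S⁻¹ = S E S`.
`theta N X = S E S + S (1 - E) S = S S = X`. -/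
theorem exists_inst {X S E : Matrix ι ι ℂ} (hS : S.PosDef) (hX : S * S = X)
    (h0 : E.PosSemidef) (h1 : (1 - E).PosSemidef) :
    ∃ Y1 Y0 : Matrix ι ι ℂ, Y1.PosSemidef ∧ Y0.PosSemidef ∧ Y1 * Y1 = X * E * X ∧
      Y0 * Y0 = X * (1 - E) * X ∧
      IsInst X (S⁻¹ * Y1 * S⁻¹, S⁻¹ * Y0 * S⁻¹) ∧
      gG X (S⁻¹ * Y1 * S⁻¹, S⁻¹ * Y0 * S⁻¹) = S * E * S := by
  have hXh : Xᴴ = X := by
    rw [← hX, Matrix.conjTranspose_mul, hS.isHermitian.eq]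
  have hSh : (S⁻¹)ᴴ = S⁻¹ := by
    rw [Matrix.conjTranspose_nonsing_inv, hS.isHermitian.eq]
  have hE1 : (X * E * X).PosSemidef := by
    have := h0.conjTranspose_mul_mul_same X
    rwa [hXh] at this
  have hE0 : (X * (1 - E) * X).PosSemidef := by
    have := h1.conjTranspose_mul_mul_same X
    rwa [hXh] at this
  obtain ⟨Y1, hY1, hY1e, -⟩ := exists_sqrt hE1
  obtain ⟨Y0, hY0, hY0e, -⟩ := exists_sqrt hE0
  have e1 := c1_conj hS hX hY1e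
  have e0 := c1_conj hS hX hY0e
  refine ⟨Y1, Y0, hY1, hY0, hY1e, hY0e, ⟨?_, ?_, ?_⟩, e1⟩
  · have := hY1.conjTranspose_mul_mul_same S⁻¹
    rwa [hSh] at this
  · have := hY0.conjTranspose_mul_mul_same S⁻¹
    rwa [hSh] at this
  · show (S⁻¹ * Y1 * S⁻¹) * X * (S⁻¹ * Y1 * S⁻¹) + (S⁻¹ * Y0 * S⁻¹) * X * (S⁻¹ * Y0 * S⁻¹) = X
    rw [e1, e0, ← Matrix.add_mul, ← Matrix.mul_add, add_sub_cancel, Matrix.mul_one, hX]

end Pool.Agent.H16T
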