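import Pool.Agent.Lib.H16T.Defs

/-! Chunk C2 (M): `Theta` is self-adjoint, positive and a contraction for the trace scalar
product. -/

namespace Pool.Agent.H16T

open Matrix Pool.Agent.H25A
open scoped ComplexOrder

variable {ι : Type*} [Fintype ι] [DecidableEq ι]

theorem theta_add (N : Matrix ι ι ℂ × Matrix ι ι ℂ) (Y Z : Matrix ι ι ℂ) :
    theta N (Y + Z) = theta N Y + theta N Z := by
  unfold theta
  rw [Matrix.mul_add, Matrix.mul_add, Matrix.add_mul, Matrix.add_mul]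
  abel

theorem theta_smul (N : Matrix ι ι ℂ × Matrix ι ι ℂ) (c : ℂ) (Y : Matrix ι ι ℂ) :
    theta N (c • Y) = c • theta N Y := by
  unfold theta
  rw [Matrix.mul_smul, Matrix.mul_smul, Matrix.smul_mul, Matrix.smul_mul, smul_add]

theorem theta_sub (N : Matrix ι ι ℂ × Matrix ι ι ℂ) (Y Z : Matrix ι ι ℂ) :
    theta N (Y - Z) = theta N Y - theta N Z := by
  unfold theta
  rw [Matrix.mul_sub, Matrix.mul_sub, Matrix.sub_mul, Matrix.sub_mul]
  abel

/-- Self-adjointness (cyclicity of the trace). -/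
theorem theta_symm (N : Matrix ι ι ℂ × Matrix ι ι ℂ) (Y Z : Matrix ι ι ℂ) :
    rtr (theta N Y * Z) = rtr (Y * theta N Z) := by
  have key : ∀ M : Matrix ι ι ℂ, rtr (M * Y * M * Z) = rtr (Y * (M * Z * M)) := by
    intro M
    have h1 : M * Y * M * Z = M * (Y * M * Z) := by simp only [Matrix.mul_assoc]
    rw [h1, rtr_mul_comm]
    simp only [Matrix.mul_assoc]
  unfold theta
  rw [Matrix.add_mul, Matrix.mul_add, rtr_add, rtr_add, key, key]

theorem theta_psd {N : Matrix ι ι ℂ × Matrix ι ι ℂ} (h1 : N.1.PosSemidef)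
    (h0 : N.2.PosSemidef) {Y : Matrix ι ι ℂ} (hY : Y.PosSemidef) : (theta N Y).PosSemidef := by
  have e1 := hY.conjTranspose_mul_mul_same N.1
  have e0 := hY.conjTranspose_mul_mul_same N.2
  rw [h1.isHermitian.eq] at e1
  rw [h0.isHermitian.eq] at e0
  exact e1.add e0

theorem theta_herm {N : Matrix ι ι ℂ × Matrix ι ι ℂ} (h1 : N.1.PosSemidef)
    (h0 : N.2.PosSemidef) {Y : Matrix ι ι ℂ} (hY : Y.IsHermitian) : (theta N Y).IsHermitian := by
  unfold theta Matrix.IsHermitian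
  rw [Matrix.conjTranspose_add, Matrix.conjTranspose_mul, Matrix.conjTranspose_mul,
    Matrix.conjTranspose_mul, Matrix.conjTranspose_mul, h1.isHermitian.eq, h0.isHermitian.eq,
    hY.eq]
  simp only [Matrix.mul_assoc]

/-- `tr (Y Theta(Y)) ≥ 0` for Hermitian `Y`.
PROOF. `N1 = B^* B` (`b1_sqrt`), `tr (Y N1 Y N1) = tr ((B Y B^*) (B Y B^*)) ≥ 0` since `B Y B^*` is
Hermitian (`rtr_conjTranspose_mul_self_nonneg`). -/
theorem theta_nonneg {N : Matrix ι ι ℂ × Matrix ι ι ℂ} (h1 : N.1.PosSemidef)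
    (h0 : N.2.PosSemidef) {Y : Matrix ι ι ℂ} (hY : Y.IsHermitian) :
    0 ≤ rtr (Y * theta N Y) := by
  have key : ∀ M : Matrix ι ι ℂ, M.PosSemidef → 0 ≤ rtr (Y * (M * Y * M)) := by
    intro M hM
    have h2 := rtr_sandwich_nonneg hM hM hY
    have h3 : M * Y * M * Y = (M * Y * M) * Y := rfl
    rw [h3, rtr_mul_comm] at h2
    exact h2
  unfold theta
  rw [Matrix.mul_add, rtr_add]
  exact add_nonneg (key _ h1) (key _ h0)

open scoped MatrixOrder Matrix.Norms.L2Operator in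
private theorem c2_bound {W : Matrix ι ι ℂ} (hW : W.IsHermitian) :
    ∃ C : ℝ, 0 ≤ C ∧ ((C : ℂ) • (1 : Matrix ι ι ℂ) - W).PosSemidef ∧
      ((C : ℂ) • (1 : Matrix ι ι ℂ) + W).PosSemidef := by
  have hsa : IsSelfAdjoint W := hW
  have h1 : W ≤ algebraMap ℝ (Matrix ι ι ℂ) ‖W‖ := hsa.le_algebraMap_norm_self
  have h2 : -(algebraMap ℝ (Matrix ι ι ℂ) ‖W‖) ≤ W := hsa.neg_algebraMap_norm_le_self
  have h3 : algebraMap ℝ (Matrix ι ι ℂ) ‖W‖ = ((‖W‖ : ℝ) : ℂ) • (1 : Matrix ι ι ℂ) := by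
    rw [Algebra.algebraMap_eq_smul_one]
    ext i j
    simp [Matrix.smul_apply]
  rw [h3] at h1 h2
  refine ⟨‖W‖, norm_nonneg _, ?_, ?_⟩
  · exact Matrix.le_iff.1 h1
  · have h4 := Matrix.le_iff.1 h2
    rwa [sub_neg_eq_add, add_comm] at h4

open scoped MatrixOrder in
private theorem c2_sqrt {A : Matrix ι ι ℂ} (hA : A.PosDef) :
    ∃ B : Matrix ι ι ℂ, B.PosSemidef ∧ B * B = A ∧ IsUnit B.det := by
  have h1 : CFC.sqrt A * CFC.sqrt A = A := CFC.sqrt_mul_sqrt_self A hA.posSemidef.nonneg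
  have h2 : (CFC.sqrt A).PosSemidef := (CFC.sqrt_nonneg A).posSemidef
  refine ⟨CFC.sqrt A, h2, h1, ?_⟩
  have h3 := hA.isUnit
  rw [Matrix.isUnit_iff_isUnit_det, ← h1, Matrix.det_mul] at h3
  exact isUnit_of_mul_isUnit_left h3

/-- `-t X ≤ Y ≤ t X`. -/
private theorem c2_dom {X Y : Matrix ι ι ℂ} (hX : X.PosDef) (hY : Y.IsHermitian) :
    ∃ t : ℝ, ((t : ℂ) • X - Y).PosSemidef ∧ ((t : ℂ) • X + Y).PosSemidef := by
  obtain ⟨S, hS, hSX, hdet⟩ := c2_sqrt hX
  have h1 : S⁻¹ * S = 1 := Matrix.nonsing_inv_mul S hdet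
  have h2 : S * S⁻¹ = 1 := Matrix.mul_nonsing_inv S hdet
  have hSh : (S⁻¹)ᴴ = S⁻¹ := by
    rw [Matrix.conjTranspose_nonsing_inv, hS.isHermitian.eq]
  have hW : (S⁻¹ * Y * S⁻¹).IsHermitian := by
    unfold Matrix.IsHermitian
    rw [Matrix.conjTranspose_mul, Matrix.conjTranspose_mul, hSh, hY.eq]
    simp only [Matrix.mul_assoc]
  obtain ⟨C, -, hC1, hC2⟩ := c2_bound hW
  have e1 : S * (S⁻¹ * Y * S⁻¹) * S = Y := by
    calc S * (S⁻¹ * Y * S⁻¹) * S = (S * S⁻¹) * Y * (S⁻¹ * S) := by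
          simp only [Matrix.mul_assoc]
      _ = Y := by rw [h1, h2, Matrix.mul_one, Matrix.one_mul]
  have e2 : S * ((C : ℂ) • (1 : Matrix ι ι ℂ)) * S = (C : ℂ) • X := by
    rw [Matrix.mul_smul, Matrix.smul_mul, Matrix.mul_one, hSX]
  refine ⟨C, ?_, ?_⟩
  · have h3 := hC1.conjTranspose_mul_mul_same S
    rw [hS.isHermitian.eq, Matrix.mul_sub, Matrix.sub_mul, e1, e2] at h3
    exact h3
  · have h3 := hC2.conjTranspose_mul_mul_same S
    rw [hS.isHermitian.eq, Matrix.mul_add, Matrix.add_mul, e1, e2] at h3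
    exact h3

/-- `rtr (W W) ≤ t^2 rtr (X X)` if `-t X ≤ W ≤ t X`. -/
private theorem c2_sq {X W : Matrix ι ι ℂ} {t : ℝ} (h1 : ((t : ℂ) • X - W).PosSemidef)
    (h2 : ((t : ℂ) • X + W).PosSemidef) : rtr (W * W) ≤ t ^ 2 * rtr (X * X) := by
  have h3 := rtr_mul_nonneg h1 h2
  have e1 : ((t : ℂ) • X - W) * ((t : ℂ) • X + W) =
      ((t : ℂ) • X) * ((t : ℂ) • X) + ((t : ℂ) • X) * W - W * ((t : ℂ) • X) - W * W := by
    rw [Matrix.sub_mul, Matrix.mul_add, Matrix.mul_add]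
    abel
  rw [e1, rtr_sub, rtr_sub, rtr_add, rtr_mul_comm W ((t : ℂ) • X), Matrix.smul_mul,
    Matrix.mul_smul, rtr_smul, rtr_smul] at h3
  linarith [h3, sq t]

/-- Cauchy-Schwarz for Hermitian matrices. -/
private theorem c2_cs {U V : Matrix ι ι ℂ} (hU : U.IsHermitian) (hV : V.IsHermitian) :
    rtr (U * V) ^ 2 ≤ rtr (U * U) * rtr (V * V) := by
  have h : ∀ s : ℝ, 0 ≤ rtr (V * V) * (s * s) + (2 * rtr (U * V)) * s + rtr (U * U) := by
    intro s
    have h1 := rtr_conjTranspose_mul_self_nonneg (U + (s : ℂ) • V)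
    have h2 : (U + (s : ℂ) • V)ᴴ = U + (s : ℂ) • V := by
      rw [Matrix.conjTranspose_add, Matrix.conjTranspose_smul, hU.eq, hV.eq]
      simp
    rw [h2] at h1
    have e1 : (U + (s : ℂ) • V) * (U + (s : ℂ) • V) =
        U * U + (s : ℂ) • (U * V) + (s : ℂ) • (V * U) + (s : ℂ) • ((s : ℂ) • (V * V)) := by
      rw [Matrix.add_mul, Matrix.mul_add, Matrix.mul_add, Matrix.mul_smul, Matrix.smul_mul,
        Matrix.smul_mul, Matrix.mul_smul]
      abel
    rw [e1, rtr_add, rtr_add, rtr_add, rtr_smul, rtr_smul, rtr_smul, rtr_smul,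
      rtr_mul_comm V U] at h1
    linarith
  have h3 := discrim_le_zero h
  unfold discrim at h3
  nlinarith

/-- A bounded log-convex sequence of nonnegative numbers does not increase at the first step. -/
private theorem c2_seq (b : ℕ → ℝ) (h0 : ∀ k, 0 ≤ b k) (h1 : ∀ k, b (k + 1) ^ 2 ≤ b k * b (k + 2))
    (M : ℝ) (hM : ∀ k, b k ≤ M) : b 1 ≤ b 0 := by
  by_contra hlt
  push Not at hlt
  have hb0 : 0 < b 0 := by
    rcases (h0 0).lt_or_eq with h | h
    · exact h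
    · exfalso
      have h2 := h1 0
      rw [← h, zero_mul] at h2
      have h3 : 0 < b 1 := (h0 0).trans_lt hlt
      have h4 : 0 < b (0 + 1) ^ 2 := by
        rw [zero_add]
        positivity
      linarith
  set r := b 1 / b 0 with hr
  have hr1 : 1 < r := (one_lt_div hb0).2 hlt
  have key : ∀ k, 0 < b k ∧ r * b k ≤ b (k + 1) := by
    intro k
    induction k with
    | zero =>
      refine ⟨hb0, ?_⟩
      rw [hr, div_mul_cancel₀ _ hb0.ne']
    | succ k ih =>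
      obtain ⟨h2, h3⟩ := ih
      have h4 : 0 < b (k + 1) := lt_of_lt_of_le (mul_pos (by linarith) h2) h3
      refine ⟨h4, ?_⟩
      have h5 := h1 k
      have h6 : b k * (r * b (k + 1)) ≤ b k * b (k + 1 + 1) := by
        calc b k * (r * b (k + 1)) = (r * b k) * b (k + 1) := by ring
          _ ≤ b (k + 1) * b (k + 1) := mul_le_mul_of_nonneg_right h3 h4.le
          _ = b (k + 1) ^ 2 := by ring
          _ ≤ _ := h5
      exact le_of_mul_le_mul_left h6 h2
  have hpow : ∀ k, r ^ k * b 0 ≤ b k := by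
    intro k
    induction k with
    | zero => simp
    | succ k ih =>
      calc r ^ (k + 1) * b 0 = r * (r ^ k * b 0) := by ring
        _ ≤ r * b k := mul_le_mul_of_nonneg_left ih (by linarith)
        _ ≤ _ := (key k).2
  obtain ⟨k, hk⟩ := pow_unbounded_of_one_lt (M / b 0) hr1
  rw [div_lt_iff₀ hb0] at hk
  exact absurd (hM k) (not_le.2 (hk.trans_le (hpow k)))

/-- `tr (Y Theta(Y)) ≤ tr (Y Y)` for Hermitian `Y`, if `X > 0` and `Theta(X) = X`.
PROOF (one of many). Put `T = theta N`, a symmetric operator on the real vector space of the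
Hermitian matrices with the scalar product `tr (Y Z)`.  For Hermitian `Y` and `m : ℕ` let
`a_m = tr (Y T^m Y)`.  `a` is nonnegative for even `m` and by Cauchy-Schwarz
`a_{m+1}^2 ≤ a_m a_{m+2}` for even and odd `m`  (for `m` even: `tr (T^{m/2} Y, T^{m/2+1} Y)`;
for odd `m`: use `tr (U T V)` as a positive semidefinite form, `theta_nonneg`).
`T^m Y` is bounded: there is `t` with `-t X ≤ Y ≤ t X`, hence `-t X ≤ T^m Y ≤ t X` (positivity and
`T X = X`), so `a_m ≤ t tr(X |..|)` is bounded in `m`.  If `a_1 > a_0` then `a_m ≥ a_0 (a_1/a_0)^m`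
is unbounded, contradiction.
Alternative proof without powers: `N_b = S⁻¹ Y_b S⁻¹`-free direct computation: with `X = S S` and
`Z = S⁻¹ Y S⁻¹`, `U_b = S N_b S` (so `U_1^2 + U_0^2 = X^2`), the claim is
`∑_b tr (Z U_b Z U_b) ≤ tr (Z X Z X)`, i.e. `∑_b ‖[Z, U_b]‖^2 ≥ ‖[Z, X]‖^2`. -/
theorem theta_le {X : Matrix ι ι ℂ} (hX : X.PosDef) {N : Matrix ι ι ℂ × Matrix ι ι ℂ}
    (hN : IsInst X N) {Y : Matrix ι ι ℂ} (hY : Y.IsHermitian) :
    rtr (Y * theta N Y) ≤ rtr (Y * Y) := by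
  obtain ⟨h1, h0, hT⟩ := hN
  obtain ⟨t, ht1, ht2⟩ := c2_dom hX hY
  set T : Matrix ι ι ℂ → Matrix ι ι ℂ := theta N with hTdef
  have hherm : ∀ k, (T^[k] Y).IsHermitian := by
    intro k
    induction k with
    | zero => exact hY
    | succ k ih =>
      rw [Function.iterate_succ_apply']
      exact theta_herm h1 h0 ih
  have hdom : ∀ k, ((t : ℂ) • X - T^[k] Y).PosSemidef ∧ ((t : ℂ) • X + T^[k] Y).PosSemidef := by
    intro k
    induction k with
    | zero => exact ⟨ht1, ht2⟩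
    | succ k ih =>
      rw [Function.iterate_succ_apply']
      refine ⟨?_, ?_⟩
      · have h3 := theta_psd h1 h0 ih.1
        rw [theta_sub, theta_smul] at h3
        rw [← hTdef, hT] at h3
        exact h3
      · have h3 := theta_psd h1 h0 ih.2
        rw [theta_add, theta_smul] at h3
        rw [← hTdef, hT] at h3
        exact h3
  set b : ℕ → ℝ := fun k => rtr (T^[k] Y * T^[k] Y) with hb
  have hb0 : ∀ k, 0 ≤ b k := by
    intro k
    have h3 := rtr_conjTranspose_mul_self_nonneg (T^[k] Y)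
    rwa [(hherm k).eq] at h3
  have hb1 : ∀ k, b (k + 1) ^ 2 ≤ b k * b (k + 2) := by
    intro k
    have h3 : b (k + 1) = rtr (T^[k] Y * T^[k + 2] Y) := by
      simp only [hb]
      have e1 : T^[k + 1] Y = T (T^[k] Y) := Function.iterate_succ_apply' _ _ _
      have e2 : T^[k + 2] Y = T (T^[k + 1] Y) := Function.iterate_succ_apply' _ _ _
      rw [e2]
      nth_rewrite 1 [e1]
      exact theta_symm N _ _
    rw [h3]
    exact c2_cs (hherm k) (hherm (k + 2))
  have hbM : ∀ k, b k ≤ t ^ 2 * rtr (X * X) := fun k => c2_sq (hdom k).1 (hdom k).2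
  have h4 : b 1 ≤ b 0 := c2_seq b hb0 hb1 _ hbM
  have h5 : b 0 = rtr (Y * Y) := rfl
  have h6 : b 1 = rtr (T Y * T Y) := rfl
  have h7 := c2_cs hY (theta_herm h1 h0 hY)
  have h8 : 0 ≤ rtr (Y * Y) := hb0 0
  rw [h5, h6] at h4
  have h9 : rtr (Y * theta N Y) ^ 2 ≤ rtr (Y * Y) ^ 2 := by
    refine h7.trans ?_
    rw [sq]
    exact mul_le_mul_of_nonneg_left h4 h8
  exact (abs_le_of_sq_le_sq' h9 h8).2

end Pool.Agent.H16T
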