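import Pool.Agent.Lib.H16T.C2

/-! Chunk C3 (M): the chain inequality for a list of instruments. -/

namespace Pool.Agent.H16T

open Matrix Pool.Agent.H25A
open scoped ComplexOrder

variable {ι : Type*} [Fintype ι] [DecidableEq ι]

/-- PROOF. Induction on the list: `f(s) X ≥ 0`; conjugation of positive semidefinite matrices by
Hermitian ones. -/
theorem vval_psd {X : Matrix ι ι ℂ} (hX : X.PosSemidef) {f : ℤ → ℝ} (hf : ∀ s, 0 ≤ f s)
    {L : List (Matrix ι ι ℂ × Matrix ι ι ℂ)} (hL : ∀ a ∈ L, IsInst X a) (s : ℤ) :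
    (vval X f L s).PosSemidef := by
  induction L generalizing s with
  | nil =>
    have h : (0 : ℂ) ≤ (f s : ℂ) := by
      exact_mod_cast hf s
    exact hX.smul h
  | cons a L ih =>
    have hL' : ∀ b ∈ L, IsInst X b := fun b hb => hL b (List.mem_cons_of_mem a hb)
    have ha : IsInst X a := hL a List.mem_cons_self
    have h1 := (ih hL' (s + 1)).conjTranspose_mul_mul_same a.1
    have h2 := (ih hL' s).conjTranspose_mul_mul_same a.2
    rw [ha.1.isHermitian.eq] at h1
    rw [ha.2.1.isHermitian.eq] at h2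
    exact h1.add h2

/-- The quadratic part of `vval`. -/
def qsum (X : Matrix ι ι ℂ) : List (Matrix ι ι ℂ × Matrix ι ι ℂ) → Matrix ι ι ℂ
  | [] => 0
  | a :: L => gG X a + (2 : ℂ) • (a.1 * msum X L * a.1) + theta a (qsum X L)

theorem vval_eq {X : Matrix ι ι ℂ} (k : ℤ) {L : List (Matrix ι ι ℂ × Matrix ι ι ℂ)}
    (hL : ∀ a ∈ L, IsInst X a) (s : ℤ) :
    vval X (fun s => ((s : ℝ) - k) * ((s : ℝ) - k - 1)) L s =
      (((s : ℂ) - k) * ((s : ℂ) - k - 1)) • X + (2 * (s : ℂ) - 2 * k - 1) • msum X L +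
        qsum X L := by
  induction L generalizing s with
  | nil =>
    simp only [vval, msum, qsum, smul_zero, add_zero]
    push_cast
    rfl
  | cons a L ih =>
    have hL' : ∀ b ∈ L, IsInst X b := fun b hb => hL b (List.mem_cons_of_mem a hb)
    have ha : IsInst X a := hL a List.mem_cons_self
    have hX : a.1 * X * a.1 + a.2 * X * a.2 = X := ha.2.2
    simp only [vval, msum, qsum]
    rw [ih hL' (s + 1), ih hL' s]
    have h0 : a.2 * X * a.2 = X - a.1 * X * a.1 := by
      rw [eq_sub_iff_add_eq, add_comm]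
      exact hX
    simp only [theta, gG, Matrix.mul_add, Matrix.add_mul, Matrix.mul_smul, Matrix.smul_mul, h0]
    push_cast
    module

theorem rtr_msum {X : Matrix ι ι ℂ} {L : List (Matrix ι ι ℂ × Matrix ι ι ℂ)}
    (hL : ∀ a ∈ L, IsInst X a) : rtr (X * msum X L) = tsum X L := by
  induction L with
  | nil => simp [msum, tsum, rtr]
  | cons a L ih =>
    have hL' : ∀ b ∈ L, IsInst X b := fun b hb => hL b (List.mem_cons_of_mem a hb)
    have ha : IsInst X a := hL a List.mem_cons_self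
    have h1 : rtr (X * theta a (msum X L)) = rtr (X * msum X L) := by
      rw [← theta_symm, ha.2.2]
    have h2 : tsum X (a :: L) = rtr (X * gG X a) + tsum X L := by
      simp [tsum]
    rw [h2, ← ih hL']
    simp only [msum]
    rw [Matrix.mul_add, rtr_add, h1]

theorem rtr_qsum {X : Matrix ι ι ℂ} {L : List (Matrix ι ι ℂ × Matrix ι ι ℂ)}
    (hL : ∀ a ∈ L, IsInst X a) : rtr (X * qsum X L) = csum X L := by
  induction L with
  | nil => simp [qsum, csum, rtr]
  | cons a L ih =>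
    have hL' : ∀ b ∈ L, IsInst X b := fun b hb => hL b (List.mem_cons_of_mem a hb)
    have ha : IsInst X a := hL a List.mem_cons_self
    have h1 : rtr (X * theta a (qsum X L)) = rtr (X * qsum X L) := by
      rw [← theta_symm, ha.2.2]
    have h2 : rtr (X * ((2 : ℂ) • (a.1 * msum X L * a.1))) = 2 * rtr (gG X a * msum X L) := by
      have h3 : X * ((2 : ℂ) • (a.1 * msum X L * a.1)) =
          ((2 : ℝ) : ℂ) • ((X * a.1 * msum X L) * a.1) := by
        rw [Matrix.mul_smul]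
        simp only [Matrix.mul_assoc, Complex.ofReal_ofNat]
      rw [h3, rtr_smul, rtr_mul_comm]
      simp only [gG, Matrix.mul_assoc]
    simp only [qsum, csum]
    rw [← ih hL', Matrix.mul_add, Matrix.mul_add, rtr_add, rtr_add, h1, h2]

/-- For `f(s) = (s - k)(s - k - 1)`:
`tr (X V(L)(s)) = (s-k)(s-k-1) tr (X X) + (2 s - 2 k - 1) tsum + csum`.
PROOF. By induction on the list, first for the matrices: let `Q([]) = 0`,
`Q(a :: L) = G_a + 2 N1 M(L) N1 + theta_a Q(L)`; then
`V(L)(s) = ((s-k)(s-k-1)) X + (2s - 2k - 1) M(L) + Q(L)` (use `theta_a X = X`, i.e.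
`N1 X N1 + N0 X N0 = X`, and `N1 X N1 = G_a`).  Then `tr (X M(L)) = tsum`, `tr (X Q(L)) = csum`
by `theta_symm`, `theta X = X` and `tr (X N1 M N1) = tr (G M)`. -/
theorem rtr_vval {X : Matrix ι ι ℂ} (k : ℤ) {L : List (Matrix ι ι ℂ × Matrix ι ι ℂ)}
    (hL : ∀ a ∈ L, IsInst X a) (s : ℤ) :
    rtr (X * vval X (fun s => ((s : ℝ) - k) * ((s : ℝ) - k - 1)) L s) =
      ((s : ℝ) - k) * ((s : ℝ) - k - 1) * rtr (X * X) + (2 * (s : ℝ) - 2 * k - 1) * tsum X L +
        csum X L := by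
  rw [vval_eq k hL s]
  have h1 : (((s : ℂ) - k) * ((s : ℂ) - k - 1)) = (((((s : ℝ) - k) * ((s : ℝ) - k - 1)) : ℝ) : ℂ) := by
    push_cast
    rfl
  have h2 : (2 * (s : ℂ) - 2 * k - 1) = (((2 * (s : ℝ) - 2 * k - 1) : ℝ) : ℂ) := by
    push_cast
    rfl
  rw [h1, h2, Matrix.mul_add, Matrix.mul_add, rtr_add, rtr_add, Matrix.mul_smul, Matrix.mul_smul,
    rtr_smul, rtr_smul, rtr_msum hL, rtr_qsum hL]

/-- The chain inequality (integrality of the number of ones).
PROOF. `s = 0` in `rtr_vval`, `(s-k)(s-k-1) ≥ 0` for integers, `rtr_mul_nonneg`. -/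
theorem chain {X : Matrix ι ι ℂ} (hX : X.PosSemidef) (k : ℤ)
    {L : List (Matrix ι ι ℂ × Matrix ι ι ℂ)} (hL : ∀ a ∈ L, IsInst X a) :
    0 ≤ (k : ℝ) * (k + 1) * rtr (X * X) - (2 * k + 1) * tsum X L + csum X L := by
  have hf : ∀ s : ℤ, (0 : ℝ) ≤ ((s : ℝ) - k) * ((s : ℝ) - k - 1) := by
    intro s
    have h : (0 : ℤ) ≤ (s - k) * (s - k - 1) := by
      rcases le_or_gt (s - k) 0 with h | h
      · exact mul_nonneg_of_nonpos_of_nonpos h (by omega)
      · exact mul_nonneg h.le (by omega)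
    exact_mod_cast h
  have h1 := rtr_mul_nonneg hX (vval_psd hX hf hL 0)
  rw [rtr_vval k hL 0] at h1
  push_cast at h1
  nlinarith [h1]

end Pool.Agent.H16T
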