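import Pool.Agent.Lib.H16T.C3

/-! Chunk C4 (M): the chain inequality in the form `D ≤ ∑ nu_j + F`. -/

namespace Pool.Agent.H16T

open Matrix Pool.Agent.H25A
open scoped ComplexOrder

variable {ι : Type*} [Fintype ι] [DecidableEq ι]

/-- `∑_i tr (X G_i) - ∑_i tr (G_i G_i) + tr ((∑ G)^2) + F = csum`.
PROOF. Induction on the list: with `g = ∑_{a in L} G_a`,
`tr ((G_a + g)^2) = tr (G_a^2) + 2 tr (G_a g) + tr (g^2)`. -/
theorem csum_eq (X : Matrix ι ι ℂ) (L : List (Matrix ι ι ℂ × Matrix ι ι ℂ)) :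
    csum X L = tsum X L - (L.map fun a => rtr (gG X a * gG X a)).sum +
      rtr ((L.map (gG X)).sum * (L.map (gG X)).sum) + fF X L := by
  induction L with
  | nil => simp [csum, tsum, fF, rtr]
  | cons a L ih =>
    have h1 : tsum X (a :: L) = rtr (X * gG X a) + tsum X L := by
      simp [tsum]
    have h2 : rtr ((gG X a + (L.map (gG X)).sum) * (gG X a + (L.map (gG X)).sum)) =
        rtr (gG X a * gG X a) + 2 * rtr (gG X a * (L.map (gG X)).sum) +
          rtr ((L.map (gG X)).sum * (L.map (gG X)).sum) := by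
      rw [Matrix.add_mul, Matrix.mul_add, Matrix.mul_add, rtr_add, rtr_add, rtr_add,
        rtr_mul_comm (L.map (gG X)).sum (gG X a)]
      ring
    have h3 : rtr (gG X a * ((L.map (gG X)).sum - msum X L)) =
        rtr (gG X a * (L.map (gG X)).sum) - rtr (gG X a * msum X L) := by
      rw [Matrix.mul_sub, rtr_sub]
    simp only [csum, fF, List.map_cons, List.sum_cons]
    rw [h1, h2, h3, ih]
    ring

/-- `D ≤ ∑ nu_j + F` for a list of instruments with `∑ G_j = Ph`:
`(2k+1) tr (X Ph) - tr (Ph Ph) - k(k+1) tr (X X) ≤ ∑_j (tr (X G_j) - tr (G_j G_j)) + F`. -/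
theorem chain_fF {X : Matrix ι ι ℂ} (hX : X.PosSemidef) (k : ℤ)
    {L : List (Matrix ι ι ℂ × Matrix ι ι ℂ)} (hL : ∀ a ∈ L, IsInst X a) {Ph : Matrix ι ι ℂ}
    (hP : (L.map (gG X)).sum = Ph) :
    (2 * k + 1) * rtr (X * Ph) - rtr (Ph * Ph) - (k : ℝ) * (k + 1) * rtr (X * X) ≤
      (L.map fun a => rtr (X * gG X a) - rtr (gG X a * gG X a)).sum + fF X L := by
  have h1 := chain hX k hL
  rw [csum_eq] at h1
  have h2 : tsum X L = rtr (X * Ph) := by
    rw [← hP]
    clear h1 hL hP
    induction L with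
    | nil => simp [tsum, rtr]
    | cons a L ih =>
      have h3 : tsum X (a :: L) = rtr (X * gG X a) + tsum X L := by
        simp [tsum]
      rw [h3, ih, List.map_cons, List.sum_cons, Matrix.mul_add, rtr_add]
  have h4 : (L.map fun a => rtr (X * gG X a) - rtr (gG X a * gG X a)).sum =
      tsum X L - (L.map fun a => rtr (gG X a * gG X a)).sum := by
    clear h1 h2 hL hP
    induction L with
    | nil => simp [tsum]
    | cons a L ih =>
      have h3 : tsum X (a :: L) = rtr (X * gG X a) + tsum X L := by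
        simp [tsum]
      rw [h3, List.map_cons, List.sum_cons, ih, List.map_cons, List.sum_cons]
      ring
  rw [h4]
  rw [hP] at h1
  rw [h2] at h1 ⊢
  nlinarith [h1]

end Pool.Agent.H16T
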