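import Pool.Agent.Lib.H25A.Defs
import Pool.Agent.Lib.H25A.B1
import Pool.Agent.Lib.H25A.B1b

/-! # Definitions for the chain inequality (MP_afe93a_an, T1 for every even n)

`rtr` is the real part of the trace.  An instrument is a pair `(N1, N0)` of positive semidefinite
matrices with `N1 X N1 + N0 X N0 = X`. -/

namespace Pool.Agent.H16T

open Matrix Pool.Agent.H25A
open scoped ComplexOrder

variable {ι : Type*} [Fintype ι] [DecidableEq ι]

/-- `Theta(Y) = N1 Y N1 + N0 Y N0`. -/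
def theta (N : Matrix ι ι ℂ × Matrix ι ι ℂ) (Y : Matrix ι ι ℂ) : Matrix ι ι ℂ :=
  N.1 * Y * N.1 + N.2 * Y * N.2

/-- An instrument for `X`. -/
def IsInst (X : Matrix ι ι ℂ) (N : Matrix ι ι ℂ × Matrix ι ι ℂ) : Prop :=
  N.1.PosSemidef ∧ N.2.PosSemidef ∧ theta N X = X

/-- `G = N1 X N1`. -/
def gG (X : Matrix ι ι ℂ) (N : Matrix ι ι ℂ × Matrix ι ι ℂ) : Matrix ι ι ℂ := N.1 * X * N.1

/-- The processed sum `M(a :: L) = G_a + Theta_a (M(L))`, so that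
`M([a_1, .., a_n]) = ∑_j Theta_1 .. Theta_{j-1} G_j`. -/
def msum (X : Matrix ι ι ℂ) : List (Matrix ι ι ℂ × Matrix ι ι ℂ) → Matrix ι ι ℂ
  | [] => 0
  | a :: L => gG X a + theta a (msum X L)

/-- `∑_i tr (X G_i)`. -/
noncomputable def tsum (X : Matrix ι ι ℂ) (L : List (Matrix ι ι ℂ × Matrix ι ι ℂ)) : ℝ :=
  (L.map fun a => rtr (X * gG X a)).sum

/-- `∑_i [tr (X G_i) + 2 tr (G_i M(L_{>i}))]`, the second moment of the number of ones. -/
noncomputable def csum (X : Matrix ι ι ℂ) : List (Matrix ι ι ℂ × Matrix ι ι ℂ) → ℝ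
  | [] => 0
  | a :: L => rtr (X * gG X a) + 2 * rtr (gG X a * msum X L) + csum X L

/-- `E f(s + number of ones)` as a matrix: `V([]) = f(s) X`,
`V(a :: L) = N1 V(L)(s+1) N1 + N0 V(L)(s) N0`. -/
def vval (X : Matrix ι ι ℂ) (f : ℤ → ℝ) : List (Matrix ι ι ℂ × Matrix ι ι ℂ) → ℤ → Matrix ι ι ℂ
  | [], s => (f s : ℂ) • X
  | a :: L, s => a.1 * vval X f L (s + 1) * a.1 + a.2 * vval X f L s * a.2

/-- `F(L) = -2 ∑_{i<j} tr (G_i (1 - Theta_{i+1} .. Theta_{j-1}) G_j)`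
`= -2 ∑_i tr (G_i (∑_{j>i} G_j - M(L_{>i})))`. -/
noncomputable def fF (X : Matrix ι ι ℂ) : List (Matrix ι ι ℂ × Matrix ι ι ℂ) → ℝ
  | [] => 0
  | a :: L => -2 * rtr (gG X a * ((L.map (gG X)).sum - msum X L)) + fF X L

end Pool.Agent.H16T
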