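import Pool.Agent.Lib.H16T.C4
import Pool.Agent.Lib.H54I.M2

/-! # The real inner product space of Hermitian matrices, the operators `B_l` -/

namespace Pool.Agent.H16T

open Matrix Pool.Agent.H25A
open scoped ComplexOrder

variable {ι : Type*} [Fintype ι] [DecidableEq ι]

/-- Hermitian matrices with the scalar product `tr (Y Z)`. -/
def HM (ι : Type*) [Fintype ι] [DecidableEq ι] : Type _ :=
  ↥(selfAdjoint.submodule ℝ (Matrix ι ι ℂ))

noncomputable instance : AddCommGroup (HM ι) :=
  inferInstanceAs (AddCommGroup ↥(selfAdjoint.submodule ℝ (Matrix ι ι ℂ)))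

noncomputable instance : Module ℝ (HM ι) :=
  inferInstanceAs (Module ℝ ↥(selfAdjoint.submodule ℝ (Matrix ι ι ℂ)))

/-- The underlying matrix. -/
def HM.val (Y : HM ι) : Matrix ι ι ℂ := Subtype.val Y

/-- A Hermitian matrix as an element of `HM`. -/
def toHM (Y : Matrix ι ι ℂ) (hY : Y.IsHermitian) : HM ι := ⟨Y, hY⟩

@[simp] theorem val_toHM (Y : Matrix ι ι ℂ) (hY : Y.IsHermitian) : (toHM Y hY).val = Y := rfl

theorem HM.herm (Y : HM ι) : (Y.val).IsHermitian := Subtype.prop Y

theorem HM.ext {Y Z : HM ι} (h : Y.val = Z.val) : Y = Z := Subtype.ext h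

@[simp] theorem HM.val_add (Y Z : HM ι) : (Y + Z).val = Y.val + Z.val := rfl

@[simp] theorem HM.val_sub (Y Z : HM ι) : (Y - Z).val = Y.val - Z.val := rfl

@[simp] theorem HM.val_zero : (0 : HM ι).val = 0 := rfl

@[simp] theorem HM.val_neg (Y : HM ι) : (-Y).val = -Y.val := rfl

@[simp] theorem HM.val_smul (r : ℝ) (Y : HM ι) : (r • Y).val = (r : ℂ) • Y.val := by
  change r • Y.val = (r : ℂ) • Y.val
  ext i j
  simp [Matrix.smul_apply]

/-- `val` as an additive map. -/
def HM.valHom : HM ι →+ Matrix ι ι ℂ where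
  toFun := HM.val
  map_zero' := rfl
  map_add' _ _ := rfl

@[simp] theorem HM.val_sum {κ : Type*} (s : Finset κ) (f : κ → HM ι) :
    (∑ i ∈ s, f i).val = ∑ i ∈ s, (f i).val := map_sum HM.valHom f s

theorem rtr_self_eq_zero {Y : Matrix ι ι ℂ} (hY : Y.IsHermitian) (h : rtr (Y * Y) = 0) : Y = 0 := by
  have h1 : Yᴴ * Y = Y * Y := by rw [hY.eq]
  rw [← h1] at h
  have h2 : (Yᴴ * Y).trace = 0 := by
    have h3 : 0 ≤ (Yᴴ * Y).trace := (Matrix.posSemidef_conjTranspose_mul_self Y).trace_nonneg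
    have h4 := (Complex.nonneg_iff.mp h3).2
    apply Complex.ext
    · exact h
    · simpa using h4.symm
  exact Matrix.trace_conjTranspose_mul_self_eq_zero_iff.mp h2

/-- The scalar product. -/
@[instance_reducible] noncomputable def coreHM : InnerProductSpace.Core ℝ (HM ι) where
  inner Y Z := rtr (Y.val * Z.val)
  conj_inner_symm Y Z := by
    simp only [conj_trivial]
    exact rtr_mul_comm _ _
  re_inner_nonneg Y := by
    have h := rtr_conjTranspose_mul_self_nonneg Y.val
    rw [Y.herm.eq] at h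
    simpa using h
  add_left Y Z W := by
    change rtr ((Y + Z).val * W.val) = _
    rw [HM.val_add, Matrix.add_mul, rtr_add]
  smul_left Y Z r := by
    change rtr ((r • Y).val * Z.val) = _
    rw [HM.val_smul, Matrix.smul_mul, rtr_smul]
    simp
  definite Y h := HM.ext (rtr_self_eq_zero Y.herm h)

noncomputable instance : NormedAddCommGroup (HM ι) := coreHM.toNormedAddCommGroup

noncomputable instance : InnerProductSpace ℝ (HM ι) := InnerProductSpace.ofCore coreHM.toCore

theorem HM.inner_eq (Y Z : HM ι) : inner ℝ Y Z = rtr (Y.val * Z.val) := rfl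

instance : FiniteDimensional ℝ (HM ι) :=
  inferInstanceAs (FiniteDimensional ℝ ↥(selfAdjoint.submodule ℝ (Matrix ι ι ℂ)))

/-- `B = 1 - Theta` on Hermitian matrices. -/
noncomputable def bB (N : Matrix ι ι ℂ × Matrix ι ι ℂ) (h1 : N.1.PosSemidef)
    (h0 : N.2.PosSemidef) : HM ι →ₗ[ℝ] HM ι where
  toFun Y := Y - toHM (theta N Y.val) (theta_herm h1 h0 Y.herm)
  map_add' Y Z := by
    apply HM.ext
    simp only [HM.val_add, HM.val_sub, val_toHM, theta_add]
    abel
  map_smul' r Y := by
    apply HM.ext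
    simp only [HM.val_sub, HM.val_smul, val_toHM, theta_smul, RingHom.id_apply, smul_sub]

@[simp] theorem bB_val (N : Matrix ι ι ℂ × Matrix ι ι ℂ) (h1 : N.1.PosSemidef)
    (h0 : N.2.PosSemidef) (Y : HM ι) : (bB N h1 h0 Y).val = Y.val - theta N Y.val := rfl

end Pool.Agent.H16T
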