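import Pool.Agent.Lib.H16T.PE4
import Pool.Agent.Lib.H54J.J9
import Pool.Agent.Lib.H92U.U6

/-! # The frame effects and the chain inequality in a frame -/

namespace Pool.Agent.H16T

open Matrix Pool.Agent.H25A Pool.Agent.H54J
open scoped ComplexOrder

variable {ι κ : Type*} [Fintype ι] [DecidableEq ι] [Fintype κ] [DecidableEq κ] {n D : ℕ}

/-- Canonical instruments exist. -/
theorem exists_canInst {X S E : Matrix ι ι ℂ} (hS : S.PosDef) (hX : S * S = X)
    (hE0 : E.PosSemidef) (hE1 : (1 - E).PosSemidef) :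
    ∃ N : Matrix ι ι ℂ × Matrix ι ι ℂ, CanInst X S E N ∧ IsInst X N := by
  have hXh : X.IsHermitian := by
    rw [← hX]
    unfold Matrix.IsHermitian
    rw [Matrix.conjTranspose_mul, hS.isHermitian.eq]
  have hp1 : (X * E * X).PosSemidef := by
    have h := hE0.conjTranspose_mul_mul_same X
    rwa [hXh.eq] at h
  have hp0 : (X * (1 - E) * X).PosSemidef := by
    have h := hE1.conjTranspose_mul_mul_same X
    rwa [hXh.eq] at h
  obtain ⟨Y1, hY1, hYY1, -⟩ := exists_sqrt hp1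
  obtain ⟨Y0, hY0, hYY0, -⟩ := exists_sqrt hp0
  have hdet : IsUnit S.det := (Matrix.isUnit_iff_isUnit_det S).1 hS.isUnit
  have h1 : S⁻¹ * S = 1 := Matrix.nonsing_inv_mul S hdet
  have h2 : S * S⁻¹ = 1 := Matrix.mul_nonsing_inv S hdet
  have hSh : (S⁻¹)ᴴ = S⁻¹ := by
    rw [Matrix.conjTranspose_nonsing_inv, hS.isHermitian.eq]
  have hN1 : (S⁻¹ * Y1 * S⁻¹).PosSemidef := by
    have h := hY1.conjTranspose_mul_mul_same S⁻¹
    rwa [hSh] at h
  have hN0 : (S⁻¹ * Y0 * S⁻¹).PosSemidef := by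
    have h := hY0.conjTranspose_mul_mul_same S⁻¹
    rwa [hSh] at h
  have key : ∀ Y F : Matrix ι ι ℂ, Y * Y = X * F * X →
      (S⁻¹ * Y * S⁻¹) * X * (S⁻¹ * Y * S⁻¹) = S * F * S := by
    intro Y F hY
    calc (S⁻¹ * Y * S⁻¹) * X * (S⁻¹ * Y * S⁻¹)
        = S⁻¹ * Y * (S⁻¹ * S) * (S * S⁻¹) * Y * S⁻¹ := by
          rw [← hX]
          simp only [Matrix.mul_assoc]
      _ = S⁻¹ * (Y * Y) * S⁻¹ := by
          rw [h1, h2, Matrix.mul_one, Matrix.mul_one]
          simp only [Matrix.mul_assoc]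
      _ = (S⁻¹ * S) * S * F * S * (S * S⁻¹) := by
          rw [hY, ← hX]
          simp only [Matrix.mul_assoc]
      _ = S * F * S := by
          rw [h1, h2, Matrix.one_mul, Matrix.mul_one]
  refine ⟨(S⁻¹ * Y1 * S⁻¹, S⁻¹ * Y0 * S⁻¹), ⟨Y1, Y0, hY1, hY0, hYY1, hYY0, rfl⟩, hN1, hN0, ?_⟩
  unfold theta
  rw [key Y1 E hYY1, key Y0 (1 - E) hYY0, ← Matrix.add_mul, ← Matrix.mul_add,
    add_sub_cancel, Matrix.mul_one, hX]

/-- The effects of the frame `U`. -/
def frE (A : Fin n → Matrix κ ι ℂ) (U : H92U.UG n) (l : Fin n) : Matrix ι ι ℂ :=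
  (H92U.rot U A l)ᴴ * H92U.rot U A l

theorem frE_psd (A : Fin n → Matrix κ ι ℂ) (U : H92U.UG n) (l : Fin n) :
    (frE A U l).PosSemidef := Matrix.posSemidef_conjTranspose_mul_self _

omit [DecidableEq κ] in
theorem frE_le (A : Fin n → Matrix κ ι ℂ) (hA : ConR A) (U : H92U.UG n) (l : Fin n) :
    (1 - frE A U l).PosSemidef := by
  have h := hA (fun j => (U : Matrix (Fin n) (Fin n) ℂ) j l)
  have h2 := H92U.col_orth U l l
  have h3 : ((∑ k, ‖(U : Matrix (Fin n) (Fin n) ℂ) k l‖ ^ 2 : ℝ) : ℂ) = 1 := by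
    rw [if_pos rfl] at h2
    rw [← h2]
    push_cast
    refine Finset.sum_congr rfl fun k _ => ?_
    rw [Complex.star_def, Complex.mul_conj, Complex.normSq_eq_norm_sq]
    push_cast
    rfl
  rw [h3, one_smul] at h
  exact h

omit [DecidableEq ι] [DecidableEq κ] in
theorem sum_frE (A : Fin n → Matrix κ ι ℂ) (U : H92U.UG n) :
    ∑ l, frE A U l = ∑ j, (A j)ᴴ * A j := by
  unfold frE
  exact H92U.sum_rot_sesq U A A (fun x y : Matrix κ ι ℂ => yᴴ * x)
    (fun x y z => Matrix.mul_add _ _ _)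
    (fun x y z => by rw [Matrix.conjTranspose_add, Matrix.add_mul])
    (fun c x y => by rw [Matrix.mul_smul])
    (fun c x y => by rw [Matrix.conjTranspose_smul, Matrix.smul_mul])

/-- `nu = tr X^2 E - tr X E X E`. -/
noncomputable def nuE (X E : Matrix ι ι ℂ) : ℝ := rtr (X * X * E) - rtr (X * E * X * E)

/-- The right side of the pair inequality summed over the pairs of a frame. -/
noncomputable def pairs (X : Matrix ι ι ℂ) (E : Fin n → Matrix ι ι ℂ) : ℝ :=
  ∑ l, ∑ i ∈ Finset.univ.erase l, (xx X (E l * E i - E i * E l) +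
    (5 / 256) * xx X (u8 (E l + E l - 1) (E i + E i - 1)))

/-- The noise terms of a frame. -/
noncomputable def noise (X : Matrix ι ι ℂ) (E : Fin n → Matrix ι ι ℂ) : ℝ :=
  ∑ l, ((5 / 16) * nsq (E l * X - X * E l) + (1 / 4) * rtr (X * X * (E l - E l * E l)))

/-- The chain inequality with the pair inequality, for a family of effects. -/
theorem chain_pairs {X : Matrix ι ι ℂ} (hX : X.PosDef) (k : ℤ) (E : Fin n → Matrix ι ι ℂ)
    (hE0 : ∀ l, (E l).PosSemidef) (hE1 : ∀ l, (1 - E l).PosSemidef) :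
    (2 * k + 1) * rtr (X * X * ∑ l, E l) - rtr (X * (∑ l, E l) * X * ∑ l, E l) -
        (k : ℝ) * (k + 1) * rtr (X * X) ≤
      (∑ l, nuE X (E l)) + (1 / 3) * (pairs X E + 2 * ((n : ℝ) - 1) * noise X E) := by
  obtain ⟨S, -, hSX, hSpd⟩ := exists_sqrt hX.posSemidef
  have hS : S.PosDef := hSpd hX
  have hXh : X.IsHermitian := hX.isHermitian
  choose N hN hI using fun l => exists_canInst hS hSX (hE0 l) (hE1 l)
  have h1 := thmA hX k N hI
  have h2 := WS_le2 hS hSX hXh E hE0 hE1 N hN hI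
  have hg : ∀ l, gG X (N l) = S * E l * S := fun l => canInst_gG hS hSX (hN l)
  have hsum : ∑ l, gG X (N l) = S * (∑ l, E l) * S := by
    simp only [hg, Matrix.mul_sum, Matrix.sum_mul]
  have e1 : ∀ F : Matrix ι ι ℂ, rtr (X * (S * F * S)) = rtr (X * X * F) := by
    intro F
    have h := rtr_mul_comm (X * S * F) S
    have h' : X * (S * F * S) = X * S * F * S := by simp only [Matrix.mul_assoc]
    have h'' : S * (X * S * F) = X * X * F := by
      rw [← hSX]
      simp only [Matrix.mul_assoc]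
    rw [h', h, h'']
  have e2 : ∀ F : Matrix ι ι ℂ, rtr (S * F * S * (S * F * S)) = rtr (X * F * X * F) := by
    intro F
    have h' : S * F * S * (S * F * S) = S * F * X * F * S := by
      rw [← hSX]
      simp only [Matrix.mul_assoc]
    have h'' : S * (S * F * X * F) = X * F * X * F := by
      rw [← hSX]
      simp only [Matrix.mul_assoc]
    rw [h', rtr_mul_comm, h'']
  rw [hsum, e1, e2] at h1
  have e3 : ∀ l, rtr (X * gG X (N l)) - rtr (gG X (N l) * gG X (N l)) = nuE X (E l) := by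
    intro l
    rw [hg, e1, e2]
    rfl
  simp only [e3] at h1
  unfold pairs noise
  linarith

end Pool.Agent.H16T
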