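import Pool.Agent.Lib.H16T.FA1

/-! # The normalisation: the average of `nu` over all frames -/

namespace Pool.Agent.H16T

open Matrix Pool.Agent.H25A Pool.Agent.H54J
open scoped ComplexOrder

variable {ι κ : Type*} [Fintype ι] [DecidableEq ι] [Fintype κ] [DecidableEq κ] {n D : ℕ}

/-- `T_ij = A_i^* A_j` in the frame `U`. -/
def frT (A : Fin n → Matrix κ ι ℂ) (i j : Fin n) (U : H92U.UG n) : Matrix ι ι ℂ :=
  (H92U.rot U A i)ᴴ * H92U.rot U A j

omit [DecidableEq ι] [DecidableEq κ] [Fintype ι] in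
theorem frT_pol (A : Fin n → Matrix κ ι ℂ) (i j : Fin n) : H92U.PolM 2 (frT A i j) := by
  have h := ((H92U.PolM.rot A i).conjTranspose).mul (H92U.PolM.rot A j)
  exact h.mono (by norm_num)

omit [DecidableEq ι] [DecidableEq κ] [Fintype ι] in
theorem frT_hasD (A : Fin n → Matrix κ ι ℂ) (a b i j : Fin n) :
    H92U.HasDM a b (frT A i j) (fun U => (if j = b then frT A i a U else 0) -
      (if i = a then frT A b j U else 0)) := by
  refine ((H92U.HasDM.rotH A i).mul (H92U.HasDM.rot A j)).congr (fun _ => rfl) fun U => ?_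
  unfold frT
  by_cases h1 : j = b
  · by_cases h2 : i = a
    · simp only [h1, h2, if_true, Matrix.neg_mul]
      abel
    · simp only [h1, h2, if_true, if_false, Matrix.zero_mul, zero_add, sub_zero]
  · by_cases h2 : i = a
    · simp only [h1, h2, if_true, if_false, Matrix.neg_mul, Matrix.mul_zero, add_zero, zero_sub]
    · simp only [h1, h2, if_false, Matrix.zero_mul, Matrix.mul_zero, add_zero, sub_zero]

/-- The tensor `tr X T_ki X T_lj`. -/
theorem ten_XX (A : Fin n → Matrix κ ι ℂ) (X : Matrix ι ι ℂ) :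
    H92U.Ten22 4 (fun i j k l U => (X * frT A k i U * X * frT A l j U).trace) := by
  constructor
  · intro i j k l
    have h1 := (((H92U.PolM.const (D := 0) (n := n) X).mul (frT_pol A k i)).mul
      (H92U.PolM.const (D := 0) (n := n) X)).mul (frT_pol A l j)
    exact h1.trace
  · intro a b i j k l
    have h1 := (((H92U.HasDM.const (a := a) (b := b) X).mul (frT_hasD A a b k i)).mul
      (H92U.HasDM.const X)).mul (frT_hasD A a b l j)
    refine h1.trace.congr (fun _ => rfl) fun U => ?_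
    simp only [Matrix.zero_mul, zero_add, Matrix.mul_zero, add_zero]
    split_ifs <;>
      simp only [Matrix.mul_sub, Matrix.sub_mul, Matrix.mul_neg, Matrix.neg_mul,
        Matrix.mul_zero, Matrix.zero_mul, Matrix.trace_sub, Matrix.trace_add, Matrix.trace_zero,
        Matrix.trace_neg, sub_zero, zero_sub, add_zero, zero_add, sub_self]
    all_goals try ring

theorem frE_eq (A : Fin n → Matrix κ ι ℂ) (U : H92U.UG n) (l : Fin n) :
    frE A U l = frT A l l U := rfl

/-- `∑_{ij} tr X T_ji X T_ij = |Phi(X)|^2`. -/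
theorem sum_cross (A : Fin n → Matrix κ ι ℂ) {X : Matrix ι ι ℂ} (U : H92U.UG n) :
    ∑ i, ∑ j, (X * frT A j i U * X * frT A i j U).trace = (phi A X * phi A X).trace := by
  have h1 : phi A X = ∑ i, H92U.rot U A i * X * (H92U.rot U A i)ᴴ := by
    unfold phi
    exact (H92U.sum_rot_sesq U A A (fun x y : Matrix κ ι ℂ => x * X * yᴴ)
      (fun x y z => by rw [Matrix.add_mul, Matrix.add_mul])
      (fun x y z => by rw [Matrix.conjTranspose_add, Matrix.mul_add])
      (fun c x y => by rw [Matrix.smul_mul, Matrix.smul_mul])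
      (fun c x y => by rw [Matrix.conjTranspose_smul, Matrix.mul_smul])).symm
  rw [h1, Matrix.sum_mul, Matrix.trace_sum]
  refine Finset.sum_congr rfl fun i _ => ?_
  rw [Matrix.mul_sum, Matrix.trace_sum]
  refine Finset.sum_congr rfl fun j _ => ?_
  unfold frT
  have h2 : X * ((H92U.rot U A j)ᴴ * H92U.rot U A i) * X * ((H92U.rot U A i)ᴴ * H92U.rot U A j) =
      X * (H92U.rot U A j)ᴴ * (H92U.rot U A i * X * (H92U.rot U A i)ᴴ * H92U.rot U A j) := by
    simp only [Matrix.mul_assoc]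
  rw [h2, Matrix.trace_mul_comm]
  simp only [Matrix.mul_assoc]

theorem sum_diag (A : Fin n → Matrix κ ι ℂ) {X : Matrix ι ι ℂ} (U : H92U.UG n) :
    ∑ i, ∑ j, (X * frT A i i U * X * frT A j j U).trace =
      (X * (∑ j, (A j)ᴴ * A j) * X * ∑ j, (A j)ᴴ * A j).trace := by
  rw [← sum_frE A U]
  simp only [frE_eq, Matrix.mul_sum, Matrix.sum_mul, Matrix.trace_sum]
  rw [Finset.sum_comm]

/-- `(n+1) Av ∑ tr X E_l X E_l = tr X P X P + |Phi(X)|^2`. -/
theorem Av_XEXE (δ : H92U.Design n D) (hD : 4 ≤ D) (A : Fin n → Matrix κ ι ℂ) (X : Matrix ι ι ℂ) :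
    ((n : ℝ) + 1) * H92U.Av δ (fun U => ∑ l, rtr (X * frE A U l * X * frE A U l)) =
      rtr (X * (∑ j, (A j)ᴴ * A j) * X * ∑ j, (A j)ᴴ * A j) + rtr (phi A X * phi A X) := by
  have hT := ten_XX A X
  have hT' : H92U.Ten22 D (fun i j k l U => (X * frT A k i U * X * frT A l j U).trace) :=
    ⟨fun i j k l => (hT.1 i j k l).mono hD, hT.2⟩
  rcases Nat.eq_zero_or_pos n with h0 | h0
  · subst h0
    simp [rtr, phi, H92U.Av]
  have hn : (n : ℂ) ≠ 0 := by exact_mod_cast h0.ne'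
  have key : ∀ a : Fin n, (n : ℂ) * ((n : ℂ) + 1) *
      H92U.Av δ (fun U => (X * frT A a a U * X * frT A a a U).trace) =
      (X * (∑ j, (A j)ᴴ * A j) * X * ∑ j, (A j)ᴴ * A j).trace + (phi A X * phi A X).trace := by
    intro a
    have h := H92U.Av_T22 δ hT' a
    rw [h]
    congr 1
    · rw [← H92U.Av_const δ ((X * (∑ j, (A j)ᴴ * A j) * X * ∑ j, (A j)ᴴ * A j).trace)]
      exact H92U.Av_congr δ fun U => sum_diag A U
    · rw [← H92U.Av_const δ ((phi A X * phi A X).trace)]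
      exact H92U.Av_congr δ fun U => sum_cross A U
  have h2 : ((n : ℂ) + 1) * H92U.Av δ (fun U => ∑ l, (X * frT A l l U * X * frT A l l U).trace) =
      (X * (∑ j, (A j)ᴴ * A j) * X * ∑ j, (A j)ᴴ * A j).trace + (phi A X * phi A X).trace := by
    rw [H92U.Av_sum]
    have h3 : (n : ℂ) * (((n : ℂ) + 1) * ∑ l,
        H92U.Av δ (fun U => (X * frT A l l U * X * frT A l l U).trace)) =
        (n : ℂ) * ((X * (∑ j, (A j)ᴴ * A j) * X * ∑ j, (A j)ᴴ * A j).trace +
          (phi A X * phi A X).trace) := by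
      rw [← mul_assoc, Finset.mul_sum, Finset.sum_congr rfl fun l _ => key l, Finset.sum_const,
        Finset.card_univ, Fintype.card_fin, nsmul_eq_mul]
    exact mul_left_cancel₀ hn h3
  have h4 := congrArg Complex.re h2
  have h5 : (((n : ℂ) + 1) * H92U.Av δ
      (fun U => ∑ l, (X * frT A l l U * X * frT A l l U).trace)).re =
      ((n : ℝ) + 1) * H92U.Av δ (fun U => ∑ l, rtr (X * frE A U l * X * frE A U l)) := by
    have h6 : ((n : ℂ) + 1) = (((n : ℝ) + 1 : ℝ) : ℂ) := by push_cast; rfl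
    rw [h6, Complex.re_ofReal_mul, ← H92U.Av_re]
    congr 1
    refine H92U.Av_congr δ fun U => ?_
    rw [Complex.re_sum]
    rfl
  rw [h5] at h4
  rw [h4, Complex.add_re]
  rfl

/-- `(n+1) Av ∑ nu_l = (n+1) tr X^2 P - tr X P X P - |Phi(X)|^2`. -/
theorem Av_nu (δ : H92U.Design n D) (hD : 4 ≤ D) (A : Fin n → Matrix κ ι ℂ) (X : Matrix ι ι ℂ) :
    ((n : ℝ) + 1) * H92U.Av δ (fun U => ∑ l, nuE X (frE A U l)) =
      ((n : ℝ) + 1) * rtr (X * X * ∑ j, (A j)ᴴ * A j) -
      rtr (X * (∑ j, (A j)ᴴ * A j) * X * ∑ j, (A j)ᴴ * A j) - rtr (phi A X * phi A X) := by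
  have h1 := Av_XEXE δ hD A X
  have h2 : ∀ U : H92U.UG n, ∑ l, nuE X (frE A U l) = rtr (X * X * ∑ j, (A j)ᴴ * A j) -
      ∑ l, rtr (X * frE A U l * X * frE A U l) := by
    intro U
    unfold nuE
    rw [Finset.sum_sub_distrib, ← rtr_sum, ← Matrix.mul_sum, sum_frE]
  rw [H92U.Av_congr δ h2, H92U.Av_sub, H92U.Av_const]
  linarith

/-- The chain inequality averaged over the frames, in the normalisation of the pair:
`|Phi(X)|^2 - k(k+1) tr X^2 + n Av ∑ nu ≤ (1/3) Av (pairs + 2(n-1) noise)`, `n = 2k`. -/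
theorem side (k : ℕ) (δ : H92U.Design (2 * k) D) (hD : 4 ≤ D)
    (A : Fin (2 * k) → Matrix κ ι ℂ) (hA : ConR A) {X : Matrix ι ι ℂ} (hX : X.PosDef) :
    rtr (phi A X * phi A X) - (k : ℝ) * (k + 1) * rtr (X * X) +
      2 * (k : ℝ) * H92U.Av δ (fun U => ∑ l, nuE X (frE A U l)) ≤
    (1 / 3) * H92U.Av δ (fun U => pairs X (frE A U) + 2 * (2 * (k : ℝ) - 1) * noise X (frE A U)) := by
  have h1 := Av_nu δ hD A X
  have h2 : ∀ U : H92U.UG (2 * k), (2 * (k : ℝ) + 1) * rtr (X * X * ∑ j, (A j)ᴴ * A j) -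
      rtr (X * (∑ j, (A j)ᴴ * A j) * X * ∑ j, (A j)ᴴ * A j) - (k : ℝ) * (k + 1) * rtr (X * X) ≤
      (∑ l, nuE X (frE A U l)) +
        (1 / 3) * (pairs X (frE A U) + 2 * (2 * (k : ℝ) - 1) * noise X (frE A U)) := by
    intro U
    have h := chain_pairs hX (k : ℤ) (frE A U) (frE_psd A U) (frE_le A hA U)
    rw [sum_frE] at h
    push_cast at h
    exact h
  have h3 := H92U.Av_mono δ h2
  rw [H92U.Av_const, H92U.Av_add, H92U.Av_mul_left_real] at h3
  push_cast at h1
  linarith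

end Pool.Agent.H16T
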