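import Pool.Agent.Lib.H16T.FA2

/-! # Final assembly: (T1) from the main average inequality at Perron pairs -/

namespace Pool.Agent.H16T

open Matrix Pool.Agent.H25A Pool.Agent.H54J
open scoped ComplexOrder

/-- One side of the main inequality: pair terms plus noise minus `3 n nu`, averaged. -/
noncomputable def defect {n D : ℕ} {ι κ : Type*} [Fintype ι] [DecidableEq ι] [Fintype κ]
    [DecidableEq κ] (δ : H92U.Design n D) (A : Fin n → Matrix κ ι ℂ) (X : Matrix ι ι ℂ) : ℝ :=
  H92U.Av δ (fun U => pairs X (frE A U) + 2 * ((n : ℝ) - 1) * noise X (frE A U) -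
    3 * (n : ℝ) * ∑ l, nuE X (frE A U l))

/-- The main inequality: at every Perron pair the sum of the two defects is `≤ 0`. -/
def Main (n D : ℕ) : Prop :=
  ∀ (α β : Type) [Fintype α] [DecidableEq α] [Fintype β] [DecidableEq β]
    (A : Fin n → Matrix β α ℂ) (X : Matrix α α ℂ) (X' : Matrix β β ℂ) (lam : ℝ),
    Perron A X X' lam → ((n : ℝ) / 2) * ((n : ℝ) / 2 + 1) < lam ^ 2 →
    ∀ δ : H92U.Design n D, defect δ A X + defect δ (fun k => (A k)ᴴ) X' ≤ 0

/-- One side, with the normalisation of the pair. -/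
theorem side_defect (k : ℕ) {D : ℕ} (δ : H92U.Design (2 * k) D) (hD : 4 ≤ D) {ι κ : Type*}
    [Fintype ι] [DecidableEq ι] [Fintype κ] [DecidableEq κ]
    {A : Fin (2 * k) → Matrix κ ι ℂ} {X : Matrix ι ι ℂ} {X' : Matrix κ κ ℂ} {lam : ℝ}
    (h : Perron A X X' lam) : lam ^ 2 - (k : ℝ) * (k + 1) ≤ (1 / 3) * defect δ A X := by
  have h1 := side k δ hD A h.con h.posX
  have h2 : rtr (phi A X * phi A X) = lam ^ 2 := by
    rw [h.map, smul_mul_smul_comm]
    have h3 : (lam : ℂ) * (lam : ℂ) = ((lam ^ 2 : ℝ) : ℂ) := by push_cast; ring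
    rw [h3, rtr_smul, h.norm', mul_one]
  have h4 : defect δ A X = H92U.Av δ (fun U => pairs X (frE A U) +
      2 * (2 * (k : ℝ) - 1) * noise X (frE A U)) -
      3 * (2 * (k : ℝ)) * H92U.Av δ (fun U => ∑ l, nuE X (frE A U l)) := by
    unfold defect
    rw [H92U.Av_sub, H92U.Av_mul_left_real]
    push_cast
    rfl
  rw [h2, h.norm] at h1
  rw [h4]
  linarith

/-- (T1) for `n = 2k` from the main inequality. -/
theorem T1Pos_of_main (k : ℕ) {D : ℕ} (hD : 4 ≤ D) (hM : Main (2 * k) D) :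
    T1Pos (2 * k) ((k : ℝ) * (k + 1)) := by
  refine PE4b (by positivity) ?_
  intro α β _ _ _ _ A X X' lam hP
  by_contra hlt
  push Not at hlt
  obtain ⟨δ⟩ := (inferInstance : Nonempty (H92U.Design (2 * k) D))
  have h1 := side_defect k δ hD hP
  have h2 := side_defect k δ hD (PE4c hP)
  have h3 := hM α β A X X' lam hP (by push_cast; linarith) δ
  linarith

end Pool.Agent.H16T
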