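import Pool.Agent.Lib.H16T.RB
import Pool.Agent.Lib.H25A.R4
import Pool.Agent.H39Alpha.Connect
import Pool.Agent.H39Alpha.UpperL2
import Pool.Agent.H39Alpha.LowerL2

/-! The reduction, part C: `α(ℓ₂ⁿ) ≤ √c` (as in H25A, any `n`). -/

namespace Pool.Agent.H16T

open Matrix Pool.Agent.H25A
open scoped ComplexOrder InnerProductSpace ComplexConjugate

variable {n : ℕ} {c : ℝ}

/-- PROOF. For `x : Fin n → ℂ` put `M = ∑ x_k u_k`, `‖M‖^2 ≤ ∑ |x_k|^2 =: s` (`Contr2`), and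
`M' = ∑ x_k u'_k`, i.e. `M'_{pq} = <b_p, M b_q>`.  For a vector `c` (`v = ∑ c_q b_q`,
`‖v‖^2 = ∑ |c_q|^2`): `(M' c)_p = <b_p, M v>`, so
`‖M' c‖^2 = ∑_p |<b_p, M v>|^2 ≤ ‖M v‖^2 ≤ s ‖v‖^2 = s ∑ |c_q|^2` (Bessel,
`Orthonormal.sum_inner_products_le`).  This is `<c, (s - M'^* M') c> ≥ 0`
(and `s - M'^* M'` is Hermitian). -/
theorem con_compress {α : Type} [Fintype α] [DecidableEq α] {H : Type*} [NormedAddCommGroup H]
    [InnerProductSpace ℂ H] {b : α → H} (hb : Orthonormal ℂ b) {u : Fin n → (H →L[ℂ] H)}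
    (hu : Pool.Agent.H39Alpha.Contr2 u) :
    Con fun k => (Matrix.of fun p q => ⟪b p, u k (b q)⟫_ℂ : Matrix α α ℂ) := by
  intro x
  obtain ⟨M, hM⟩ : ∃ M : H →L[ℂ] H, M = ∑ k, x k • u k := ⟨_, rfl⟩
  have hs : ‖M‖ ^ 2 ≤ ∑ k, ‖x k‖ ^ 2 := by
    rw [hM]
    exact hu x
  have h1 : ∑ k, x k • (Matrix.of fun p q => ⟪b p, u k (b q)⟫_ℂ : Matrix α α ℂ) =
      Matrix.of fun p q => ⟪b p, M (b q)⟫_ℂ := by
    ext p q
    rw [Matrix.sum_apply, Matrix.of_apply, hM, _root_.sum_apply, inner_sum]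
    refine Finset.sum_congr rfl fun k _ => ?_
    rw [Matrix.smul_apply, Matrix.of_apply, smul_eq_mul, _root_.smul_apply,
      inner_smul_right]
  rw [h1]
  obtain ⟨M', hM'⟩ : ∃ M' : Matrix α α ℂ, M' = Matrix.of fun p q => ⟪b p, M (b q)⟫_ℂ := ⟨_, rfl⟩
  rw [← hM']
  refine PosSemidef.of_dotProduct_mulVec_nonneg ?_ fun c => ?_
  · refine IsHermitian.sub ?_ (isHermitian_conjTranspose_mul_self _)
    show ((((∑ k, ‖x k‖ ^ 2 : ℝ) : ℂ) • (1 : Matrix α α ℂ)))ᴴ = _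
    rw [conjTranspose_smul, conjTranspose_one, RCLike.star_def, Complex.conj_ofReal]
  · have h2 : ∀ p, (M' *ᵥ c) p = ⟪b p, M (∑ q, c q • b q)⟫_ℂ := fun p => by
      rw [map_sum, inner_sum, hM']
      refine Finset.sum_congr rfl fun q _ => ?_
      show ⟪b p, M (b q)⟫_ℂ * c q = ⟪b p, M (c q • b q)⟫_ℂ
      rw [map_smul, inner_smul_right, mul_comm]
    have h3 : ∀ w : α → ℂ, star w ⬝ᵥ w = ((∑ p, ‖w p‖ ^ 2 : ℝ) : ℂ) := fun w => by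
      unfold dotProduct
      rw [Complex.ofReal_sum]
      refine Finset.sum_congr rfl fun p _ => ?_
      rw [Pi.star_apply, RCLike.star_def, Complex.conj_mul', Complex.ofReal_pow]
    have h4 : star c ⬝ᵥ ((((∑ k, ‖x k‖ ^ 2 : ℝ) : ℂ) • (1 : Matrix α α ℂ) - M'ᴴ * M') *ᵥ c) =
        (((∑ k, ‖x k‖ ^ 2) * (∑ p, ‖c p‖ ^ 2) - ∑ p, ‖(M' *ᵥ c) p‖ ^ 2 : ℝ) : ℂ) := by
      rw [sub_mulVec, dotProduct_sub, smul_mulVec, one_mulVec, dotProduct_smul, h3,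
        ← mulVec_mulVec, dotProduct_mulVec, vecMul_conjTranspose, star_star, h3, smul_eq_mul]
      push_cast
      ring
    rw [h4]
    have h5 : ∑ p, ‖(M' *ᵥ c) p‖ ^ 2 ≤ ‖M (∑ q, c q • b q)‖ ^ 2 := by
      rw [Finset.sum_congr rfl fun p _ => by rw [h2 p]]
      exact hb.sum_inner_products_le _
    have h6 : ‖∑ q, c q • b q‖ ^ 2 = ∑ q, ‖c q‖ ^ 2 := by
      have h7 : ((‖∑ q, c q • b q‖ ^ 2 : ℝ) : ℂ) = ((∑ q, ‖c q‖ ^ 2 : ℝ) : ℂ) := by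
        have h8 := inner_self_eq_norm_sq_to_K (𝕜 := ℂ) (∑ q, c q • b q)
        rw [hb.inner_sum] at h8
        rw [Complex.ofReal_pow, Complex.ofReal_sum]
        refine h8.symm.trans (Finset.sum_congr rfl fun q _ => ?_)
        rw [Complex.conj_mul', Complex.ofReal_pow]
      exact_mod_cast h7
    have h9 : ‖M (∑ q, c q • b q)‖ ^ 2 ≤ (∑ k, ‖x k‖ ^ 2) * ∑ q, ‖c q‖ ^ 2 := by
      calc ‖M (∑ q, c q • b q)‖ ^ 2 ≤ (‖M‖ * ‖∑ q, c q • b q‖) ^ 2 :=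
            pow_le_pow_left₀ (norm_nonneg _) (M.le_opNorm _) 2
        _ = ‖M‖ ^ 2 * ‖∑ q, c q • b q‖ ^ 2 := mul_pow _ _ _
        _ ≤ (∑ k, ‖x k‖ ^ 2) * ∑ q, ‖c q‖ ^ 2 := by
            rw [h6]
            exact mul_le_mul_of_nonneg_right hs (Finset.sum_nonneg fun _ _ => by positivity)
    have h10 : (0 : ℝ) ≤ (∑ k, ‖x k‖ ^ 2) * (∑ p, ‖c p‖ ^ 2) - ∑ p, ‖(M' *ᵥ c) p‖ ^ 2 :=
      sub_nonneg.2 (h5.trans h9)
    exact_mod_cast h10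

section R5

theorem r5_tr {α β : Type*} [Fintype α] [Fintype β] (N : Matrix α β ℂ) :
    ((N * Nᴴ).trace).re = ∑ p, ∑ j, ‖N p j‖ ^ 2 := by
  unfold Matrix.trace
  rw [Complex.re_sum]
  refine Finset.sum_congr rfl fun p _ => ?_
  rw [Matrix.diag_apply, Matrix.mul_apply, Complex.re_sum]
  refine Finset.sum_congr rfl fun j _ => ?_
  rw [Matrix.conjTranspose_apply]
  show (N p j * (starRingEnd ℂ) (N p j)).re = _
  rw [Complex.mul_conj']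
  norm_cast

/-- A scalar estimate: `|tr (N^* Z)|^2 ≤ tr (N^* N) tr (Z^* Z)` for rectangular matrices
(Cauchy-Schwarz for finite sums). -/
theorem trace_cs {α β : Type*} [Fintype α] [Fintype β] (N Z : Matrix α β ℂ) :
    ‖(Nᴴ * Z).trace‖ ^ 2 ≤ ((N * Nᴴ).trace).re * ((Z * Zᴴ).trace).re := by
  rw [r5_tr, r5_tr]
  have h1 : (Nᴴ * Z).trace = ∑ x : α × β, star (N x.1 x.2) * Z x.1 x.2 := by
    rw [Fintype.sum_prod_type_right]
    unfold Matrix.trace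
    refine Finset.sum_congr rfl fun j _ => ?_
    rw [Matrix.diag_apply, Matrix.mul_apply]
    refine Finset.sum_congr rfl fun i _ => ?_
    rw [Matrix.conjTranspose_apply]
  have h2 : ‖(Nᴴ * Z).trace‖ ≤ ∑ x : α × β, ‖N x.1 x.2‖ * ‖Z x.1 x.2‖ := by
    rw [h1]
    refine (_root_.norm_sum_le _ _).trans (le_of_eq (Finset.sum_congr rfl fun x _ => ?_))
    rw [norm_mul, norm_star]
  have h3 := Finset.sum_mul_sq_le_sq_mul_sq (Finset.univ : Finset (α × β)) (fun x => ‖N x.1 x.2‖) (fun x => ‖Z x.1 x.2‖)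
  have h4 : ∀ M : Matrix α β ℂ, ∑ p, ∑ j, ‖M p j‖ ^ 2 = ∑ x : α × β, ‖M x.1 x.2‖ ^ 2 := fun M => by
    rw [Fintype.sum_prod_type]
  rw [h4, h4]
  refine le_trans ?_ h3
  exact pow_le_pow_left₀ (norm_nonneg _) h2 2

variable {m : ℕ} {H : Type*} [NormedAddCommGroup H] [InnerProductSpace ℂ H] [CompleteSpace H]

omit [CompleteSpace H] in
theorem r5_norm {d : ℕ} {b : Fin d → H} (hb : Orthonormal ℂ b) {v : H} (hv : v = ∑ q, ⟪b q, v⟫_ℂ • b q) :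
    ‖v‖ ^ 2 = ∑ q, ‖⟪b q, v⟫_ℂ‖ ^ 2 := by
  obtain ⟨c, hc⟩ : ∃ c : Fin d → ℂ, c = fun q => ⟪b q, v⟫_ℂ := ⟨_, rfl⟩
  have hv' : v = ∑ q, c q • b q := by rw [hc]; exact hv
  have h1 : ⟪v, v⟫_ℂ = ∑ q, conj (c q) * c q := by
    conv_lhs => rw [hv']
    exact hb.inner_sum c c Finset.univ
  have h2 : ((‖v‖ ^ 2 : ℝ) : ℂ) = ((∑ q, ‖c q‖ ^ 2 : ℝ) : ℂ) := by
    rw [Complex.ofReal_pow]
    have h3 : ((‖v‖ : ℝ) : ℂ) ^ 2 = ⟪v, v⟫_ℂ := (inner_self_eq_norm_sq_to_K (𝕜 := ℂ) v).symm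
    rw [h3, h1, Complex.ofReal_sum]
    refine Finset.sum_congr rfl fun q _ => ?_
    rw [Complex.conj_mul', Complex.ofReal_pow]
  have h4 := Complex.ofReal_injective h2
  rw [h4, hc]

/-- `‖∑ a_k ⊗ u_k‖^2 ≤ 6`.
PROOF. Let `T = ∑_k amp H (a_k) * dia m (u_k)`, `ξ` a vector, `η = T ξ`.  Take the orthonormal
family `b : Fin d → H` of R4 for the components `ξ_j`, `η_j`; matrices
`Ξ_{pj} = <b_p, ξ_j>`, `N_{pj} = <b_p, η_j>` in `Matrix (Fin d) (Fin m) ℂ` and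
`u'_k = (<b_p, u_k b_q>)_{pq}` (`Con u'` by R3).  Then
`‖η‖^2 = <η, T ξ> = ∑_k ∑_{ij} (a_k)_{ij} <η_i, u_k ξ_j>
= ∑_k ∑_{ijpq} (a_k)_{ij} conj(N_{pi}) (u'_k)_{pq} Ξ_{qj} = tr (N^* Z)`,
`Z = ∑_k u'_k Ξ (a_k)^T`.  R2 with `a := fun k => (a_k)^T` (hypothesis `ha`) gives
`tr (Z Z^*) ≤ c tr (Ξ Ξ^*) = 6 ‖ξ‖^2`, and `tr (N N^*) = ‖η‖^2`.  So
`‖η‖^4 ≤ ‖η‖^2 * 6 ‖ξ‖^2`, i.e. `‖T ξ‖^2 ≤ c ‖ξ‖^2`. -/
theorem norm_sum_le (hc : 0 ≤ c) (hT : T1Pos n c) {a : Fin n → Matrix (Fin m) (Fin m) ℂ}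
    (ha : Con fun k => ((a k)ᵀ)ᴴ) {u : Fin n → (H →L[ℂ] H)}
    (hu : Pool.Agent.H39Alpha.Contr2 u) :
    ‖∑ k, Pool.Agent.H39Alpha.amp H (a k) * Pool.Agent.H39Alpha.dia m (u k)‖ ≤ Real.sqrt c := by
  obtain ⟨T, hTT⟩ : ∃ T, T = ∑ k, Pool.Agent.H39Alpha.amp H (a k) * Pool.Agent.H39Alpha.dia m (u k) := ⟨_, rfl⟩
  rw [← hTT]
  refine ContinuousLinearMap.opNorm_le_bound _ (Real.sqrt_nonneg _) fun ξ => ?_
  have hTi : ∀ i, (T ξ) i = ∑ k, ∑ j, (a k) i j • u k (ξ j) := by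
    intro i
    rw [hTT]
    simp [_root_.sum_apply, mul_apply_eq_comp]
  obtain ⟨d, b, hb, hξ, hη⟩ := exists_onb (fun j => ξ j) (fun j => (T ξ) j)
  obtain ⟨Ξ, hΞ⟩ : ∃ Ξ : Matrix (Fin d) (Fin m) ℂ, Ξ = Matrix.of fun p j => ⟪b p, ξ j⟫_ℂ := ⟨_, rfl⟩
  obtain ⟨N, hN⟩ : ∃ N : Matrix (Fin d) (Fin m) ℂ, N = Matrix.of fun p j => ⟪b p, (T ξ) j⟫_ℂ := ⟨_, rfl⟩
  obtain ⟨v, hv⟩ : ∃ v : Fin n → Matrix (Fin d) (Fin d) ℂ, v = fun k => Matrix.of fun p q => ⟪b p, u k (b q)⟫_ℂ :=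
    ⟨_, rfl⟩
  have hcon : Con v := by rw [hv]; exact con_compress hb hu
  have main := rect_le hc hT hcon ha Ξ
  have hZ : (∑ k, v k * Ξ * (a k)ᵀ) = N := by
    ext p i
    have e1 : N p i = ⟪b p, (T ξ) i⟫_ℂ := by rw [hN]; rfl
    rw [e1, hTi i, inner_sum, Matrix.sum_apply]
    refine Finset.sum_congr rfl fun k _ => ?_
    rw [inner_sum, Matrix.mul_apply]
    refine Finset.sum_congr rfl fun j _ => ?_
    rw [inner_smul_right, Matrix.transpose_apply, Matrix.mul_apply, mul_comm]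
    congr 1
    have e2 : u k (ξ j) = ∑ q, ⟪b q, ξ j⟫_ℂ • u k (b q) := by
      conv_lhs => rw [hξ j]
      rw [map_sum]
      refine Finset.sum_congr rfl fun q _ => ?_
      rw [map_smul]
    rw [e2, inner_sum]
    refine Finset.sum_congr rfl fun q _ => ?_
    rw [inner_smul_right, hv, hΞ, mul_comm]
    rfl
  rw [hZ] at main
  unfold rtr at main
  rw [r5_tr, r5_tr, Finset.sum_comm] at main
  have n1 : ‖T ξ‖ ^ 2 = ∑ j, ∑ p, ‖N p j‖ ^ 2 := by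
    rw [PiLp.norm_sq_eq_of_L2]
    refine Finset.sum_congr rfl fun j _ => ?_
    rw [r5_norm hb (hη j), hN]
    rfl
  have n2 : ‖ξ‖ ^ 2 = ∑ p, ∑ j, ‖Ξ p j‖ ^ 2 := by
    rw [PiLp.norm_sq_eq_of_L2, Finset.sum_comm]
    refine Finset.sum_congr rfl fun j _ => ?_
    rw [r5_norm hb (hξ j), hΞ]
    rfl
  rw [← n1, ← n2] at main
  rw [← sq_le_sq₀ (norm_nonneg _) (by positivity), mul_pow, Real.sq_sqrt hc]
  exact main

end R5

section R6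

variable {m : ℕ}

lemma r6_dot {m : ℕ} (v : Fin m → ℂ) :
    star v ⬝ᵥ v = ((‖(WithLp.toLp 2 v : EuclideanSpace ℂ (Fin m))‖ ^ 2 : ℝ) : ℂ) := by
  rw [EuclideanSpace.norm_eq, Real.sq_sqrt (Finset.sum_nonneg fun i _ => by positivity)]
  simp only [dotProduct, Pi.star_apply, RCLike.star_def]
  push_cast
  exact Finset.sum_congr rfl fun i _ => RCLike.conj_mul (v i)

lemma r6_psd {m : ℕ} (M : Matrix (Fin m) (Fin m) ℂ) (s : ℝ) (hs : 0 ≤ s)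
    (h : ‖Matrix.toEuclideanCLM (𝕜 := ℂ) M‖ ≤ Real.sqrt s) :
    (((s : ℂ) • (1 : Matrix (Fin m) (Fin m) ℂ)) - Mᴴ * M).PosSemidef := by
  refine PosSemidef.of_dotProduct_mulVec_nonneg ?_ fun v => ?_
  · refine IsHermitian.sub ?_ (isHermitian_conjTranspose_mul_self M)
    show ((s : ℂ) • (1 : Matrix (Fin m) (Fin m) ℂ))ᴴ = _
    rw [conjTranspose_smul, conjTranspose_one]
    simp
  · have h1 : star v ⬝ᵥ ((((s : ℂ) • (1 : Matrix (Fin m) (Fin m) ℂ)) - Mᴴ * M) *ᵥ v) =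
        (s : ℂ) * (star v ⬝ᵥ v) - star (M *ᵥ v) ⬝ᵥ (M *ᵥ v) := by
      rw [sub_mulVec, dotProduct_sub, smul_mulVec, one_mulVec, dotProduct_smul, smul_eq_mul,
        ← mulVec_mulVec, dotProduct_mulVec, ← star_mulVec]
    rw [h1, r6_dot, r6_dot]
    have h2 : ‖(WithLp.toLp 2 (M *ᵥ v) : EuclideanSpace ℂ (Fin m))‖ ≤
        Real.sqrt s * ‖(WithLp.toLp 2 v : EuclideanSpace ℂ (Fin m))‖ := by
      have h3 := (Matrix.toEuclideanCLM (𝕜 := ℂ) M).le_opNorm (WithLp.toLp 2 v)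
      rw [Matrix.toEuclideanCLM_toLp] at h3
      exact h3.trans (mul_le_mul_of_nonneg_right h (norm_nonneg _))
    have h4 : ‖(WithLp.toLp 2 (M *ᵥ v) : EuclideanSpace ℂ (Fin m))‖ ^ 2 ≤
        s * ‖(WithLp.toLp 2 v : EuclideanSpace ℂ (Fin m))‖ ^ 2 := by
      calc ‖(WithLp.toLp 2 (M *ᵥ v) : EuclideanSpace ℂ (Fin m))‖ ^ 2
          ≤ (Real.sqrt s * ‖(WithLp.toLp 2 v : EuclideanSpace ℂ (Fin m))‖) ^ 2 :=
            pow_le_pow_left₀ (norm_nonneg _) h2 2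
        _ = _ := by rw [mul_pow, Real.sq_sqrt hs]
    rw [← Complex.ofReal_mul, ← Complex.ofReal_sub, Complex.zero_le_real]
    exact sub_nonneg.2 h4

/-- PROOF. `((a_k)^T)^*` is the entrywise conjugate of `a_k`, so for `y : Fin n → ℂ`
`∑ y_k ((a_k)^T)^*` is the entrywise conjugate of `M = ∑ conj(y_k) a_k`, and
`s - (conj M)^* (conj M)` is the entrywise conjugate of `s - M^* M`.  Now `‖M v‖^2 ≤ s ‖v‖^2` for
all `v`, `s = ∑ |y_k|^2`: `M = x.map f` with `f = ∑ conj(y_k) proj_k`, `‖f‖^2 ≤ s`, and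
`norm_map_le_of_minNorm` (see the proof of `contr2_amp` in `H39Alpha/UpperL2.lean`).  So
`s - M^* M` is positive semidefinite, and so is its entrywise conjugate (its transpose). -/
theorem con_of_minNorm (x : Matrix (Fin m) (Fin m) (EuclideanSpace ℂ (Fin n)))
    (hx : Pool.Agent.H39Alpha.minNorm x ≤ 1) :
    Con fun k => ((x.map (EuclideanSpace.proj k : EuclideanSpace ℂ (Fin n) →L[ℂ] ℂ))ᵀ)ᴴ := by
  intro y
  obtain ⟨f, hf⟩ : ∃ f : EuclideanSpace ℂ (Fin n) →L[ℂ] ℂ,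
      f = ∑ k, star (y k) • (EuclideanSpace.proj k : EuclideanSpace ℂ (Fin n) →L[ℂ] ℂ) := ⟨_, rfl⟩
  have h1 : ∑ k, y k • ((x.map (EuclideanSpace.proj k : EuclideanSpace ℂ (Fin n) →L[ℂ] ℂ))ᵀ)ᴴ
      = ((x.map f)ᵀ)ᴴ := by
    ext i j
    simp [hf, Matrix.sum_apply, _root_.sum_apply]
  have h3 : ‖f‖ ≤ Real.sqrt (∑ k, ‖y k‖ ^ 2) := by
    refine ContinuousLinearMap.opNorm_le_bound _ (Real.sqrt_nonneg _) fun z => ?_
    have h4 : f z = ∑ k, star (y k) * z k := by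
      simp [hf, _root_.sum_apply]
    rw [h4, EuclideanSpace.norm_eq]
    calc ‖∑ k, star (y k) * z k‖ ≤ ∑ k, ‖y k‖ * ‖z k‖ := by
          refine (_root_.norm_sum_le _ _).trans (le_of_eq ?_)
          simp
      _ ≤ Real.sqrt (∑ k, ‖y k‖ ^ 2) * Real.sqrt (∑ k, ‖z k‖ ^ 2) :=
          Real.sum_mul_le_sqrt_mul_sqrt _ _ _
  have h5 := r6_psd (x.map f) (∑ k, ‖y k‖ ^ 2) (Finset.sum_nonneg fun i _ => by positivity)
    ((Pool.Agent.H39Alpha.norm_map_le_of_minNorm x hx f).trans h3)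
  have h6 := h5.transpose
  rw [h1]
  have h7 : (((((∑ k, ‖y k‖ ^ 2 : ℝ) : ℂ) • (1 : Matrix (Fin m) (Fin m) ℂ)) -
      (x.map f)ᴴ * x.map f))ᵀ = ((((∑ k, ‖y k‖ ^ 2 : ℝ) : ℂ) • (1 : Matrix (Fin m) (Fin m) ℂ)) -
      (((x.map f)ᵀ)ᴴ)ᴴ * ((x.map f)ᵀ)ᴴ) := by
    rw [transpose_sub, transpose_smul, transpose_one, transpose_mul, conjTranspose_conjTranspose]
    rfl
  rw [← h7]
  exact h6

/-- PROOF. `∑ y_k u(e_k) = u(y)`, `‖u(y)‖ ≤ ‖y‖` (see the proof of `contr2_dia` in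
`H39Alpha/UpperL2.lean`). -/
theorem contr2_of_norm {H : Type*} [NormedAddCommGroup H] [InnerProductSpace ℂ H]
    (u : EuclideanSpace ℂ (Fin n) →L[ℂ] (H →L[ℂ] H)) (hu : ‖u‖ ≤ 1) :
    Pool.Agent.H39Alpha.Contr2 (fun k => u (EuclideanSpace.single k (1:ℂ))) := by
  intro y
  have h1 : ∑ k, y k • u (EuclideanSpace.single k (1:ℂ)) = u (WithLp.toLp 2 y) := by
    conv_rhs => rw [Pool.Agent.H39Alpha.euclidean_decomp (WithLp.toLp 2 y)]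
    simp [map_sum]
  rw [h1]
  have h2 : ‖u (WithLp.toLp 2 y)‖ ≤ ‖(WithLp.toLp 2 y : EuclideanSpace ℂ (Fin n))‖ := by
    refine (u.le_opNorm _).trans ?_
    exact mul_le_of_le_one_left (norm_nonneg _) hu
  calc ‖u (WithLp.toLp 2 y)‖ ^ 2
      ≤ ‖(WithLp.toLp 2 y : EuclideanSpace ℂ (Fin n))‖ ^ 2 := by gcongr
    _ = ∑ k, ‖y k‖ ^ 2 := by
        rw [EuclideanSpace.norm_eq, Real.sq_sqrt (Finset.sum_nonneg fun i _ => by positivity)]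

end R6

open Pool.Agent.H39Alpha

universe v

/-- `α(ℓ₂ⁿ) ≤ √c` if (T1) holds with the constant `c`. -/
theorem alpha_le (hc : 0 ≤ c) (hT : T1Pos n c) :
    alpha.{v} (EuclideanSpace ℂ (Fin n)) ≤ ENNReal.ofReal (Real.sqrt c) := by
  refine iSup_le fun m => iSup_le fun x => iSup_le fun hx => ?_
  refine iSup_le fun H => iSup_le fun _ => iSup_le fun _ => iSup_le fun _ => iSup_le fun u =>
    iSup_le fun hu => ?_
  apply ENNReal.ofReal_le_ofReal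
  rw [blockOp_map_eq_sum x u (fun k => EuclideanSpace.single k (1:ℂ))
    (fun k => (EuclideanSpace.proj k : EuclideanSpace ℂ (Fin n) →L[ℂ] ℂ)) euclidean_decomp]
  exact norm_sum_le hc hT (con_of_minNorm x hx) (contr2_of_norm u hu)

/-- `α(ℓ₂^{2k}) = √(k(k+1))` if (T1) holds with the constant `k(k+1)`. -/
theorem alpha_eq (k : ℕ) (hT : T1Pos (2 * k) ((k : ℝ) * (k + 1))) :
    alpha.{v} (EuclideanSpace ℂ (Fin (2 * k))) =
      ENNReal.ofReal (Real.sqrt ((k : ℝ) * (k + 1))) := by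
  refine le_antisymm (alpha_le (by positivity) hT) ?_
  have h := le_alpha_l2.{v} (2 * k) k
  have e : ((k : ℝ) + 1) * (((2 * k : ℕ) : ℝ) - (k : ℝ)) = (k : ℝ) * (k + 1) := by
    push_cast; ring
  rwa [e] at h

end Pool.Agent.H16T
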