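import Pool.Agent.Lib.H16T.FA3
import Pool.Agent.Lib.H16T.RC

/-! # (T1) for `n = 2` -/

namespace Pool.Agent.H16T

open Matrix Pool.Agent.H25A Pool.Agent.H54J
open scoped ComplexOrder

variable {ι κ : Type*} [Fintype ι] [DecidableEq ι] [Fintype κ] [DecidableEq κ]

/-- For two instruments the chain functional `F` vanishes. -/
theorem chain_two {X : Matrix ι ι ℂ} (hX : X.PosDef) (E : Fin 2 → Matrix ι ι ℂ)
    (hE0 : ∀ l, (E l).PosSemidef) (hE1 : ∀ l, (1 - E l).PosSemidef) :
    3 * rtr (X * X * ∑ l, E l) - rtr (X * (∑ l, E l) * X * ∑ l, E l) - 2 * rtr (X * X) ≤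
      ∑ l, nuE X (E l) := by
  obtain ⟨S, -, hSX, hSpd⟩ := exists_sqrt hX.posSemidef
  have hS : S.PosDef := hSpd hX
  choose N hN hI using fun l => exists_canInst hS hSX (hE0 l) (hE1 l)
  have hg : ∀ l, gG X (N l) = S * E l * S := fun l => canInst_gG hS hSX (hN l)
  have hsum : ([N 0, N 1].map (gG X)).sum = S * (∑ l, E l) * S := by
    simp only [List.map_cons, List.map_nil, List.sum_cons, List.sum_nil, add_zero, hg,
      Fin.sum_univ_two, Matrix.mul_add, Matrix.add_mul]
  have h1 := chain_fF hX.posSemidef 1 (L := [N 0, N 1]) (by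
    intro a ha
    simp only [List.mem_cons, List.not_mem_nil, or_false] at ha
    rcases ha with rfl | rfl
    · exact hI 0
    · exact hI 1) hsum
  have hF : fF X [N 0, N 1] = 0 := by
    simp [fF, msum, theta, rtr]
  have e1 : ∀ F : Matrix ι ι ℂ, rtr (X * (S * F * S)) = rtr (X * X * F) := by
    intro F
    have h := rtr_mul_comm (X * S * F) S
    have h' : X * (S * F * S) = X * S * F * S := by simp only [Matrix.mul_assoc]
    have h'' : S * (X * S * F) = X * X * F := by
      rw [← hSX]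
      simp only [Matrix.mul_assoc]
    rw [h', h, h'']
  have e2 : ∀ F : Matrix ι ι ℂ, rtr (S * F * S * (S * F * S)) = rtr (X * F * X * F) := by
    intro F
    have h' : S * F * S * (S * F * S) = S * F * X * F * S := by
      rw [← hSX]
      simp only [Matrix.mul_assoc]
    have h'' : S * (S * F * X * F) = X * F * X * F := by
      rw [← hSX]
      simp only [Matrix.mul_assoc]
    rw [h', rtr_mul_comm, h'']
  have e3 : ∀ l, rtr (X * gG X (N l)) - rtr (gG X (N l) * gG X (N l)) = nuE X (E l) := by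
    intro l
    rw [hg, e1, e2]
    rfl
  rw [hF, e1, e2] at h1
  simp only [List.map_cons, List.map_nil, List.sum_cons, List.sum_nil, e3, add_zero] at h1
  rw [Fin.sum_univ_two (fun l => nuE X (E l))]
  push_cast at h1
  linarith

/-- `|Phi(X)|^2 ≤ 2 |X|^2` for two-tuples. -/
theorem phi_two {D : ℕ} (δ : H92U.Design 2 D) (hD : 4 ≤ D) (A : Fin 2 → Matrix κ ι ℂ)
    (hA : ConR A) {X : Matrix ι ι ℂ} (hX : X.PosDef) :
    rtr (phi A X * phi A X) ≤ 2 * rtr (X * X) := by
  have h1 := Av_nu δ hD A X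
  have h2 : ∀ U : H92U.UG 2, 3 * rtr (X * X * ∑ j, (A j)ᴴ * A j) -
      rtr (X * (∑ j, (A j)ᴴ * A j) * X * ∑ j, (A j)ᴴ * A j) - 2 * rtr (X * X) ≤
      ∑ l, nuE X (frE A U l) := by
    intro U
    have h := chain_two hX (frE A U) (frE_psd A U) (frE_le A hA U)
    rw [sum_frE] at h
    exact h
  have h3 := H92U.Av_mono δ h2
  rw [H92U.Av_const] at h3
  have h4 : 0 ≤ H92U.Av δ (fun U => ∑ l, nuE X (frE A U l)) := by
    refine H92U.Av_nonneg δ fun U => Finset.sum_nonneg fun l _ => ?_
    have hE := (frE_psd A U l)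
    have h5 := rtr_sandwich_nonneg (frE_psd A U l) (frE_le A hA U l) hX.isHermitian
    have h6 : rtr (frE A U l * X * (1 - frE A U l) * X) = nuE X (frE A U l) := by
      unfold nuE
      have e1 : frE A U l * X * (1 - frE A U l) * X =
          frE A U l * (X * X) - frE A U l * (X * frE A U l * X) := by
        rw [Matrix.mul_sub, Matrix.mul_one, Matrix.sub_mul]
        simp only [Matrix.mul_assoc]
      rw [e1, rtr_sub, rtr_mul_comm (frE A U l) (X * X), rtr_mul_comm (frE A U l) _]
    rwa [h6] at h5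
  push_cast at h1
  linarith

/-- (T1) for `n = 2`. -/
theorem T1Pos_two : T1Pos 2 2 := by
  refine PE4b (by norm_num) ?_
  intro α β _ _ _ _ A X X' lam hP
  obtain ⟨δ⟩ := (inferInstance : Nonempty (H92U.Design 2 4))
  have h1 := phi_two δ le_rfl A hP.con hP.posX
  have h2 : rtr (phi A X * phi A X) = lam ^ 2 := by
    rw [hP.map, smul_mul_smul_comm]
    have h3 : (lam : ℂ) * (lam : ℂ) = ((lam ^ 2 : ℝ) : ℂ) := by push_cast; ring
    rw [h3, rtr_smul, hP.norm', mul_one]
  rw [h2, hP.norm] at h1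
  linarith

end Pool.Agent.H16T
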