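import Pool.Agent.Lib.H16T.TA
import Pool.Agent.Lib.H16T.RA

/-! # Perron pairs: definitions -/

namespace Pool.Agent.H16T

open Matrix Pool.Agent.H25A
open scoped ComplexOrder

/-- `x ↦ ∑ x k • A k` is a contraction (rectangular matrices). -/
def ConR {n : ℕ} {ι κ : Type*} [Fintype ι] [DecidableEq ι] [Fintype κ]
    (A : Fin n → Matrix κ ι ℂ) : Prop :=
  ∀ x : Fin n → ℂ, ((((∑ k, ‖x k‖ ^ 2 : ℝ) : ℂ) • (1 : Matrix ι ι ℂ)) -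
    (∑ k, x k • A k)ᴴ * (∑ k, x k • A k)).PosSemidef

/-- `Φ(X) = ∑ A_k X A_k^*`. -/
def phi {n : ℕ} {ι κ : Type*} [Fintype ι] (A : Fin n → Matrix κ ι ℂ) (X : Matrix ι ι ℂ) :
    Matrix κ κ ℂ := ∑ k, A k * X * (A k)ᴴ

/-- `Φ^*(Z) = ∑ A_k^* Z A_k`. -/
def phiT {n : ℕ} {ι κ : Type*} [Fintype κ] (A : Fin n → Matrix κ ι ℂ) (Z : Matrix κ κ ℂ) :
    Matrix ι ι ℂ := ∑ k, (A k)ᴴ * Z * A k

/-- A normalised Perron pair `Φ(X) = lam X'`, `Φ^*(X') = lam X`, `X, X' > 0`,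
`tr X^2 = tr X'^2 = 1`, of a contractive tuple. -/
structure Perron {n : ℕ} {ι κ : Type*} [Fintype ι] [DecidableEq ι] [Fintype κ] [DecidableEq κ]
    (A : Fin n → Matrix κ ι ℂ) (X : Matrix ι ι ℂ) (X' : Matrix κ κ ℂ) (lam : ℝ) : Prop where
  con : ConR A
  posX : X.PosDef
  posX' : X'.PosDef
  pos : 0 < lam
  map : phi A X = (lam : ℂ) • X'
  mapT : phiT A X' = (lam : ℂ) • X
  norm : rtr (X * X) = 1
  norm' : rtr (X' * X') = 1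

end Pool.Agent.H16T
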