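import Pool.Agent.Lib.H16T.PDefs

/-! Chunk PE1 (M): a Hermitian maximiser of `tr Φ(H)^2 / tr H^2`. -/

namespace Pool.Agent.H16T

open Matrix Pool.Agent.H25A
open scoped ComplexOrder

variable {ι κ : Type*} [Fintype ι] [DecidableEq ι] [Fintype κ] [DecidableEq κ] {n : ℕ}

private theorem pe1_herm (A : Fin n → Matrix κ ι ℂ) {H : Matrix ι ι ℂ} (hH : H.IsHermitian) :
    (phi A H).IsHermitian := by
  unfold phi Matrix.IsHermitian
  rw [Matrix.conjTranspose_sum]
  refine Finset.sum_congr rfl fun k _ => ?_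
  rw [Matrix.conjTranspose_mul, Matrix.conjTranspose_mul, Matrix.conjTranspose_conjTranspose,
    hH.eq, Matrix.mul_assoc]

private theorem pe1_add (A : Fin n → Matrix κ ι ℂ) (X Y : Matrix ι ι ℂ) :
    phi A (X + Y) = phi A X + phi A Y := by
  unfold phi
  rw [← Finset.sum_add_distrib]
  refine Finset.sum_congr rfl fun k _ => ?_
  rw [Matrix.mul_add, Matrix.add_mul]

private theorem pe1_smul (A : Fin n → Matrix κ ι ℂ) (c : ℂ) (X : Matrix ι ι ℂ) :
    phi A (c • X) = c • phi A X := by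
  unfold phi
  rw [Finset.smul_sum]
  refine Finset.sum_congr rfl fun k _ => ?_
  rw [Matrix.mul_smul, Matrix.smul_mul]

private noncomputable def pe1_T (A : Fin n → Matrix κ ι ℂ) : HM ι →ₗ[ℝ] HM κ where
  toFun Y := toHM (phi A Y.val) (pe1_herm A Y.herm)
  map_add' Y Z := by
    apply HM.ext
    simp only [HM.val_add, val_toHM, pe1_add]
  map_smul' r Y := by
    apply HM.ext
    simp only [HM.val_smul, val_toHM, pe1_smul, RingHom.id_apply]

private theorem pe1_T_val (A : Fin n → Matrix κ ι ℂ) (Y : HM ι) :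
    (pe1_T A Y).val = phi A Y.val := rfl

/-- PROOF. In the finite dimensional inner product space `HM ι` (file Defs2, `HM.inner_eq`) the unit
sphere `{x | ‖x‖ = 1}` is compact (`isCompact_sphere`, `ProperSpace` from finite dimension:
`FiniteDimensional.proper ℝ (HM ι)`) and nonempty (normalise `1`, `rtr (1 * 1) = card ι > 0`).  The
function `x ↦ rtr (phi A x.val * phi A x.val)` is continuous: it is a quadratic form on a finite
dimensional space, e.g. it equals `inner (T x) (T x)` for the linear map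
`T : HM ι →ₗ[ℝ] HM κ`, `(T x).val = phi A x.val` (`LinearMap.continuous_of_finiteDimensional`).
Take a maximiser `x` (`IsCompact.exists_isMaxOn`), `X = x.val`.  For Hermitian `H` with
`t = rtr (H * H) > 0` apply maximality to `t ^ (-1/2) • H`; if `t = 0` then `H = 0`
(`rtr_self_eq_zero`). -/
theorem PE1 [Nonempty ι] (A : Fin n → Matrix κ ι ℂ) :
    ∃ X : Matrix ι ι ℂ, X.IsHermitian ∧ rtr (X * X) = 1 ∧
      ∀ H : Matrix ι ι ℂ, H.IsHermitian →
        rtr (phi A H * phi A H) ≤ rtr (phi A X * phi A X) * rtr (H * H) := by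
  haveI : ProperSpace (HM ι) := FiniteDimensional.proper ℝ (HM ι)
  haveI : Nontrivial (HM ι) := by
    refine ⟨⟨toHM (1 : Matrix ι ι ℂ) Matrix.isHermitian_one, 0, ?_⟩⟩
    intro h
    have h1 : (1 : Matrix ι ι ℂ) = 0 := congrArg HM.val h
    obtain ⟨i⟩ := (inferInstance : Nonempty ι)
    have h2 := congrFun (congrFun h1 i) i
    rw [Matrix.one_apply_eq, Matrix.zero_apply] at h2
    exact one_ne_zero h2
  have hc : IsCompact (Metric.sphere (0 : HM ι) 1) := isCompact_sphere 0 1
  have hne : (Metric.sphere (0 : HM ι) 1).Nonempty := NormedSpace.sphere_nonempty.mpr zero_le_one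
  have hcont : Continuous fun x : HM ι => ‖pe1_T A x‖ :=
    (LinearMap.continuous_of_finiteDimensional (pe1_T A)).norm
  obtain ⟨x, hx, hmax⟩ := hc.exists_isMaxOn hne hcont.continuousOn
  have hx1 : ‖x‖ = 1 := by simpa using hx
  have nsq : ∀ y : HM ι, rtr (y.val * y.val) = ‖y‖ ^ 2 := fun y => by
    rw [← HM.inner_eq, real_inner_self_eq_norm_sq]
  have nsq' : ∀ y : HM ι, rtr (phi A y.val * phi A y.val) = ‖pe1_T A y‖ ^ 2 := fun y => by
    rw [← pe1_T_val, ← HM.inner_eq, real_inner_self_eq_norm_sq]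
  refine ⟨x.val, x.herm, ?_, ?_⟩
  · rw [nsq, hx1, one_pow]
  · intro H hH
    have e1 := nsq (toHM H hH)
    have e2 := nsq' (toHM H hH)
    rw [val_toHM] at e1 e2
    rw [e1, e2, nsq', ← mul_pow]
    refine pow_le_pow_left₀ (norm_nonneg _) ?_ 2
    by_cases h0 : toHM H hH = 0
    · rw [h0, map_zero, norm_zero, norm_zero, mul_zero]
    · have hn : 0 < ‖toHM H hH‖ := norm_pos_iff.mpr h0
      have hm : (‖toHM H hH‖⁻¹ • toHM H hH) ∈ Metric.sphere (0 : HM ι) 1 := by
        rw [mem_sphere_zero_iff_norm, norm_smul, norm_inv, norm_norm, inv_mul_cancel₀ hn.ne']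
      have h3 : ‖pe1_T A (‖toHM H hH‖⁻¹ • toHM H hH)‖ ≤ ‖pe1_T A x‖ := hmax hm
      rw [map_smul, norm_smul, norm_inv, norm_norm, inv_mul_le_iff₀ hn] at h3
      rw [mul_comm]
      exact h3

end Pool.Agent.H16T
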