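import Pool.Agent.Lib.H16T.PE1

/-! Chunk PE2 (M): a positive maximiser and the eigenvalue equation. -/

namespace Pool.Agent.H16T

open Matrix Pool.Agent.H25A
open scoped ComplexOrder

variable {ι κ : Type*} [Fintype ι] [DecidableEq ι] [Fintype κ] [DecidableEq κ] {n : ℕ}

private theorem pe2_herm (A : Fin n → Matrix κ ι ℂ) {H : Matrix ι ι ℂ} (hH : H.IsHermitian) :
    (phi A H).IsHermitian := by
  unfold phi Matrix.IsHermitian
  rw [Matrix.conjTranspose_sum]
  refine Finset.sum_congr rfl fun k _ => ?_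
  rw [Matrix.conjTranspose_mul, Matrix.conjTranspose_mul, Matrix.conjTranspose_conjTranspose,
    hH.eq, Matrix.mul_assoc]

private theorem pe2_hermT (A : Fin n → Matrix κ ι ℂ) {H : Matrix κ κ ℂ} (hH : H.IsHermitian) :
    (phiT A H).IsHermitian := by
  unfold phiT Matrix.IsHermitian
  rw [Matrix.conjTranspose_sum]
  refine Finset.sum_congr rfl fun k _ => ?_
  rw [Matrix.conjTranspose_mul, Matrix.conjTranspose_mul, Matrix.conjTranspose_conjTranspose,
    hH.eq, Matrix.mul_assoc]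

private theorem pe2_add (A : Fin n → Matrix κ ι ℂ) (X Y : Matrix ι ι ℂ) :
    phi A (X + Y) = phi A X + phi A Y := by
  unfold phi
  rw [← Finset.sum_add_distrib]
  refine Finset.sum_congr rfl fun k _ => ?_
  rw [Matrix.mul_add, Matrix.add_mul]

private theorem pe2_sub (A : Fin n → Matrix κ ι ℂ) (X Y : Matrix ι ι ℂ) :
    phi A (X - Y) = phi A X - phi A Y := by
  unfold phi
  rw [← Finset.sum_sub_distrib]
  refine Finset.sum_congr rfl fun k _ => ?_
  rw [Matrix.mul_sub, Matrix.sub_mul]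

private theorem pe2_smul (A : Fin n → Matrix κ ι ℂ) (c : ℂ) (X : Matrix ι ι ℂ) :
    phi A (c • X) = c • phi A X := by
  unfold phi
  rw [Finset.smul_sum]
  refine Finset.sum_congr rfl fun k _ => ?_
  rw [Matrix.mul_smul, Matrix.smul_mul]

private theorem pe2_pos (A : Fin n → Matrix κ ι ℂ) {X : Matrix ι ι ℂ} (hX : X.PosSemidef) :
    (phi A X).PosSemidef := by
  unfold phi
  refine Matrix.posSemidef_sum _ fun k _ => ?_
  exact hX.mul_mul_conjTranspose_same (A k)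

/-- cyclicity -/
private theorem pe2_cyc (A : Fin n → Matrix κ ι ℂ) (Y : Matrix κ κ ℂ) (Z : Matrix ι ι ℂ) :
    rtr (Y * phi A Z) = rtr (phiT A Y * Z) := by
  unfold phi phiT rtr
  rw [Matrix.mul_sum, Matrix.sum_mul, Matrix.trace_sum, Matrix.trace_sum]
  congr 1
  refine Finset.sum_congr rfl fun k _ => ?_
  have e1 : Y * (A k * Z * (A k)ᴴ) = (Y * A k * Z) * (A k)ᴴ := by
    simp only [Matrix.mul_assoc]
  rw [e1, Matrix.trace_mul_comm]
  simp only [Matrix.mul_assoc]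

private theorem pe2_sq (P Q : Matrix ι ι ℂ) :
    rtr ((P + Q) * (P + Q)) = rtr (P * P) + 2 * rtr (P * Q) + rtr (Q * Q) := by
  have e : (P + Q) * (P + Q) = P * P + P * Q + (Q * P + Q * Q) := by
    rw [Matrix.add_mul, Matrix.mul_add, Matrix.mul_add]
  rw [e, rtr_add, rtr_add, rtr_add, rtr_mul_comm Q P]
  ring

private theorem pe2_nonneg {H : Matrix ι ι ℂ} (hH : H.IsHermitian) : 0 ≤ rtr (H * H) := by
  have h := rtr_conjTranspose_mul_self_nonneg H
  rwa [hH.eq] at h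

private theorem pe2_real {d C : ℝ} (hd : 0 ≤ d) (h : ∀ t : ℝ, 2 * t * d ≤ t ^ 2 * C) : d = 0 := by
  by_contra hne
  have hpos : 0 < d := lt_of_le_of_ne hd (Ne.symm hne)
  have hC : 0 < |C| + 1 := by positivity
  have h1 := h (d / (|C| + 1))
  have ht : 0 < d / (|C| + 1) := div_pos hpos hC
  have h2 : 2 * d ≤ d / (|C| + 1) * C := by
    have h3 : d / (|C| + 1) * (2 * d) ≤ d / (|C| + 1) * (d / (|C| + 1) * C) := by
      calc d / (|C| + 1) * (2 * d) = 2 * (d / (|C| + 1)) * d := by ring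
        _ ≤ (d / (|C| + 1)) ^ 2 * C := h1
        _ = d / (|C| + 1) * (d / (|C| + 1) * C) := by ring
    exact le_of_mul_le_mul_left h3 ht
  have h4 : d / (|C| + 1) * C ≤ d := by
    rw [div_mul_eq_mul_div, div_le_iff₀ hC]
    have := le_abs_self C
    nlinarith
  linarith

/-- PROOF. `X` from `PE1`, `X = Xp - Xm` with `Xp Xm = Xm Xp = 0` (`pm_parts` of H25A.B3),
`Y = Xp + Xm ≥ 0`: `Y Y = X X`, and `phi A Y = phi A Xp + phi A Xm`, so
`rtr (phi Y * phi Y) = rtr (phi X * phi X) + 4 rtr (phi Xp * phi Xm) ≥ rtr (phi X * phi X)`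
(`rtr_mul_nonneg`, `phi` of a positive matrix is positive). -/
theorem PE2a [Nonempty ι] (A : Fin n → Matrix κ ι ℂ) :
    ∃ X : Matrix ι ι ℂ, X.PosSemidef ∧ rtr (X * X) = 1 ∧
      ∀ H : Matrix ι ι ℂ, H.IsHermitian →
        rtr (phi A H * phi A H) ≤ rtr (phi A X * phi A X) * rtr (H * H) := by
  obtain ⟨X, hX, h1, hmax⟩ := PE1 A
  obtain ⟨Gp, Gm, Q, hp, hm, hG, -, -, -, -, hpm, hmp⟩ := pm_parts hX
  have hY : (Gp + Gm).PosSemidef := hp.add hm
  have e1 : rtr ((Gp + Gm) * (Gp + Gm)) = rtr (X * X) := by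
    have e2 : X * X = Gp * Gp + Gm * Gm := by
      rw [hG, Matrix.sub_mul, Matrix.mul_sub, Matrix.mul_sub, hpm, hmp]
      abel
    rw [pe2_sq, e2, rtr_add, hpm]
    have : rtr (0 : Matrix ι ι ℂ) = 0 := by simp [rtr]
    rw [this]
    ring
  have e3 : rtr (phi A X * phi A X) ≤ rtr (phi A (Gp + Gm) * phi A (Gp + Gm)) := by
    have e4 : phi A X = phi A Gp + (-1 : ℂ) • phi A Gm := by
      rw [hG, pe2_sub, neg_one_smul, sub_eq_add_neg]
    have h0 : 0 ≤ rtr (phi A Gp * phi A Gm) := rtr_mul_nonneg (pe2_pos A hp) (pe2_pos A hm)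
    rw [pe2_add, pe2_sq, e4, pe2_sq]
    have e5 : phi A Gp * ((-1 : ℂ) • phi A Gm) = -(phi A Gp * phi A Gm) := by
      rw [Matrix.mul_smul, neg_one_smul]
    have e6 : ((-1 : ℂ) • phi A Gm) * ((-1 : ℂ) • phi A Gm) = phi A Gm * phi A Gm := by
      rw [Matrix.mul_smul, Matrix.smul_mul, smul_smul]
      norm_num
    rw [e5, e6, rtr_neg]
    linarith
  refine ⟨Gp + Gm, hY, ?_, ?_⟩
  · rw [e1, h1]
  · intro H hH
    exact (hmax H hH).trans (mul_le_mul_of_nonneg_right e3 (pe2_nonneg hH))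

/-- The eigenvalue equation of a maximiser.
PROOF. Put `L = rtr (phi X * phi X)`, `Z = phiT A (phi A X) - L • X` (Hermitian).  For real `t` take
`H = X + t Z`: `rtr (phi H * phi H) ≤ L rtr (H * H)` is
`L + 2 t rtr (phi X * phi Z) + t^2 (..) ≤ L (1 + 2 t rtr (X * Z) + t^2 rtr (Z * Z))`, and
`rtr (phi X * phi Z) = rtr (phiT (phi X) * Z)` (cyclicity), so `2 t rtr (Z * Z) ≤ t^2 C` for all real
`t`, hence `rtr (Z * Z) = 0` and `Z = 0` (`rtr_self_eq_zero`). -/
theorem PE2b (A : Fin n → Matrix κ ι ℂ) {X : Matrix ι ι ℂ} (hX : X.IsHermitian)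
    (h1 : rtr (X * X) = 1)
    (hmax : ∀ H : Matrix ι ι ℂ, H.IsHermitian →
        rtr (phi A H * phi A H) ≤ rtr (phi A X * phi A X) * rtr (H * H)) :
    phiT A (phi A X) = ((rtr (phi A X * phi A X) : ℝ) : ℂ) • X := by
  obtain ⟨L, hL⟩ : ∃ L : ℝ, L = rtr (phi A X * phi A X) := ⟨_, rfl⟩
  rw [← hL]
  rw [← hL] at hmax
  obtain ⟨Z, hZ⟩ : ∃ Z : Matrix ι ι ℂ, Z = phiT A (phi A X) - (L : ℂ) • X := ⟨_, rfl⟩
  have hLX : ((L : ℂ) • X).IsHermitian := by
    unfold Matrix.IsHermitian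
    rw [Matrix.conjTranspose_smul, hX.eq, Complex.star_def, Complex.conj_ofReal]
  have hZh : Z.IsHermitian := by
    rw [hZ]
    exact (pe2_hermT A (pe2_herm A hX)).sub hLX
  have hb : rtr (phi A X * phi A Z) = rtr (Z * Z) + L * rtr (X * Z) := by
    rw [pe2_cyc]
    have e : phiT A (phi A X) = Z + (L : ℂ) • X := by rw [hZ]; abel
    rw [e, Matrix.add_mul, rtr_add, Matrix.smul_mul, rtr_smul]
  have hkey : ∀ t : ℝ, 2 * t * rtr (Z * Z) ≤ t ^ 2 * (L * rtr (Z * Z) - rtr (phi A Z * phi A Z)) := by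
    intro t
    have htZ : ((t : ℂ) • Z).IsHermitian := by
      unfold Matrix.IsHermitian
      rw [Matrix.conjTranspose_smul, hZh.eq, Complex.star_def, Complex.conj_ofReal]
    have h2 := hmax (X + (t : ℂ) • Z) (hX.add htZ)
    rw [pe2_add, pe2_smul, pe2_sq, pe2_sq] at h2
    simp only [Matrix.mul_smul, Matrix.smul_mul, rtr_smul] at h2
    rw [hb, ← hL, h1] at h2
    nlinarith
  have hd := pe2_real (pe2_nonneg hZh) hkey
  have h0 : Z = 0 := rtr_self_eq_zero hZh hd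
  rw [hZ] at h0
  exact sub_eq_zero.1 h0

end Pool.Agent.H16T
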