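import Pool.Agent.Lib.H16T.PDefs

/-! Chunk PE3 (M): compression to the support. -/

namespace Pool.Agent.H16T

open Matrix Pool.Agent.H25A
open scoped ComplexOrder

/-- A positive semidefinite matrix compressed to its support is positive definite.
PROOF. `hX.isHermitian.spectral_theorem`: `X = U diag(x) U^*`, `x ≥ 0`.  `α = {i // x i ≠ 0}`,
`V = U.submatrix id Subtype.val`.  `V^* V = 1` (`submatrix` of `U^* U = 1`),
`V^* X V = diag(x restricted to α)` is positive definite (`Matrix.PosDef.diagonal`) and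
`V (V^* X V) V^* = X` because the missing terms have `x i = 0` (compare entries: sum over `α` = sum over
`ι`, `Finset.sum_subtype` / `Finset.sum_filter_ne_zero`). -/
theorem PE3a {ι : Type} [Fintype ι] [DecidableEq ι] {X : Matrix ι ι ℂ} (hX : X.PosSemidef) :
    ∃ (α : Type) (_ : Fintype α) (_ : DecidableEq α) (V : Matrix ι α ℂ),
      Vᴴ * V = 1 ∧ (Vᴴ * X * V).PosDef ∧ V * (Vᴴ * X * V) * Vᴴ = X := by
  classical
  have hH := hX.isHermitian
  set U : Matrix ι ι ℂ := (hH.eigenvectorUnitary : Matrix ι ι ℂ) with hU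
  set x : ι → ℝ := hH.eigenvalues with hx
  have hx0 : ∀ i, 0 ≤ x i := fun i => hX.eigenvalues_nonneg i
  have h1 : Uᴴ * U = 1 := Matrix.mem_unitaryGroup_iff'.1 hH.eigenvectorUnitary.2
  have h2 : X = U * Matrix.diagonal (fun i => (x i : ℂ)) * Uᴴ := by
    have h := hH.spectral_theorem
    rw [Unitary.conjStarAlgAut_apply] at h
    exact h
  have h3 : Uᴴ * X * U = Matrix.diagonal (fun i => (x i : ℂ)) := by
    calc Uᴴ * X * U = (Uᴴ * U) * Matrix.diagonal (fun i => (x i : ℂ)) * (Uᴴ * U) := by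
          conv_lhs => rw [h2]
          simp only [Matrix.mul_assoc]
      _ = _ := by rw [h1, Matrix.one_mul, Matrix.mul_one]
  let α : Type := {i : ι // x i ≠ 0}
  let V : Matrix ι α ℂ := U.submatrix id Subtype.val
  have hVH : Vᴴ = Uᴴ.submatrix Subtype.val id := rfl
  have h4 : Vᴴ * V = 1 := by
    have h5 := Matrix.submatrix_mul Uᴴ U (Subtype.val : α → ι) id (Subtype.val : α → ι)
      Function.bijective_id
    rw [h1] at h5
    have h6 : (1 : Matrix ι ι ℂ).submatrix (Subtype.val : α → ι) Subtype.val = 1 :=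
      Matrix.submatrix_one _ Subtype.val_injective
    rw [hVH]
    exact h5.symm.trans h6
  have h5 : Vᴴ * X * V = Matrix.diagonal (fun a : α => (x a.1 : ℂ)) := by
    have h6 : (Uᴴ * X * U).submatrix (Subtype.val : α → ι) Subtype.val = Vᴴ * X * V := by
      rw [Matrix.submatrix_mul (Uᴴ * X) U (Subtype.val : α → ι) id (Subtype.val : α → ι)
        Function.bijective_id, Matrix.submatrix_mul Uᴴ X (Subtype.val : α → ι) id id
        Function.bijective_id]
      rfl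
    rw [← h6, h3]
    exact Matrix.submatrix_diagonal _ _ Subtype.val_injective
  refine ⟨α, inferInstance, inferInstance, V, h4, ?_, ?_⟩
  · rw [h5]
    refine Matrix.PosDef.diagonal fun a => ?_
    have h6 : 0 < x a.1 := lt_of_le_of_ne (hx0 a.1) (Ne.symm a.2)
    exact_mod_cast h6
  · rw [h5, h2]
    ext i j
    rw [Matrix.mul_apply, Matrix.mul_apply]
    have h6 : ∀ a : α, (V * Matrix.diagonal (fun a : α => (x a.1 : ℂ))) i a * Vᴴ a j =
        U i a.1 * (x a.1 : ℂ) * Uᴴ a.1 j := by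
      intro a
      rw [Matrix.mul_diagonal]
      rfl
    have h7 : ∀ a : ι, (U * Matrix.diagonal (fun a => (x a : ℂ))) i a * Uᴴ a j =
        U i a * (x a : ℂ) * Uᴴ a j := by
      intro a
      rw [Matrix.mul_diagonal]
    simp_rw [h6, h7]
    rw [← Finset.sum_filter_of_ne (s := Finset.univ) (p := fun a => x a ≠ 0)
      (f := fun a => U i a * (x a : ℂ) * Uᴴ a j)]
    · exact (Finset.sum_subtype (Finset.univ.filter fun a => x a ≠ 0) (fun a => by simp)
        (fun a => U i a * (x a : ℂ) * Uᴴ a j)).symm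
    · intro a _ h8 h9
      apply h8
      rw [h9]
      simp

/-- PROOF. `∑ x k • (W^* A_k V) = W^* (∑ x k • A_k) V` and `W W^* ≤ 1` (since `W^* W = 1`, the matrix
`1 - W W^*` is a self-adjoint idempotent, hence `(1 - W W^*)^* (1 - W W^*)`), so
`(W^* T V)^* (W^* T V) = V^* T^* W W^* T V ≤ V^* T^* T V ≤ (∑ |x k|^2) V^* V`. -/
theorem PE3b {n : ℕ} {ι κ α β : Type*} [Fintype ι] [DecidableEq ι] [Fintype κ] [DecidableEq κ]
    [Fintype α] [DecidableEq α] [Fintype β] [DecidableEq β] {A : Fin n → Matrix κ ι ℂ}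
    (hA : ConR A) {V : Matrix ι α ℂ} {W : Matrix κ β ℂ} (hV : Vᴴ * V = 1) (hW : Wᴴ * W = 1) :
    ConR (fun k => Wᴴ * A k * V) := by
  intro x
  set T : Matrix κ ι ℂ := ∑ k, x k • A k with hT
  set s : ℂ := ((∑ k, ‖x k‖ ^ 2 : ℝ) : ℂ) with hs
  have h1 : ∑ k, x k • (Wᴴ * A k * V) = Wᴴ * T * V := by
    rw [hT, Matrix.mul_sum, Matrix.sum_mul]
    refine Finset.sum_congr rfl fun k _ => ?_
    rw [Matrix.mul_smul, Matrix.smul_mul]
  have h2 : (1 - W * Wᴴ).PosSemidef := by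
    have h3 : (1 - W * Wᴴ)ᴴ * (1 - W * Wᴴ) = 1 - W * Wᴴ := by
      rw [Matrix.conjTranspose_sub, Matrix.conjTranspose_one, Matrix.conjTranspose_mul,
        Matrix.conjTranspose_conjTranspose, Matrix.sub_mul, Matrix.one_mul, Matrix.mul_sub,
        Matrix.mul_one]
      have h4 : W * Wᴴ * (W * Wᴴ) = W * Wᴴ := by
        calc W * Wᴴ * (W * Wᴴ) = W * (Wᴴ * W) * Wᴴ := by simp only [Matrix.mul_assoc]
          _ = W * Wᴴ := by rw [hW, Matrix.mul_one]
      rw [h4, sub_self, sub_zero]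
    rw [← h3]
    exact Matrix.posSemidef_conjTranspose_mul_self _
  have h3 : s • (1 : Matrix α α ℂ) - (Wᴴ * T * V)ᴴ * (Wᴴ * T * V) =
      Vᴴ * (s • (1 : Matrix ι ι ℂ) - Tᴴ * T) * V + (T * V)ᴴ * (1 - W * Wᴴ) * (T * V) := by
    simp only [Matrix.conjTranspose_mul, Matrix.conjTranspose_conjTranspose, Matrix.mul_sub,
      Matrix.sub_mul, Matrix.mul_smul, Matrix.smul_mul, Matrix.mul_one, Matrix.mul_assoc, hV]
    abel
  rw [h1, h3]
  exact ((hA x).conjTranspose_mul_mul_same V).add (h2.conjTranspose_mul_mul_same (T * V))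

/-- The adjoint tuple is contractive.
PROOF. For a rectangular matrix `T` (here `T = ∑ conj(x k) A_k`, so `T^* = ∑ x k A_k^*`) and `s ≥ 0`:
`s - T^* T ≥ 0` implies `s - T T^* ≥ 0`.  E.g. for every vector `y`,
`‖T^* y‖^4 = ⟨T T^* y, y⟩^2 ≤ ‖T (T^* y)‖^2 ‖y‖^2 ≤ s ‖T^* y‖^2 ‖y‖^2`; or by
`Matrix.PosSemidef.fromBlocks` (Schur complement) twice. -/
theorem PE3c {n : ℕ} {ι κ : Type*} [Fintype ι] [DecidableEq ι] [Fintype κ] [DecidableEq κ]
    {A : Fin n → Matrix κ ι ℂ} (hA : ConR A) : ConR (fun k => (A k)ᴴ) := by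
  intro x
  set T : Matrix κ ι ℂ := ∑ k, (starRingEnd ℂ) (x k) • A k with hT
  have h1 : ∑ k, x k • (A k)ᴴ = Tᴴ := by
    rw [hT, Matrix.conjTranspose_sum]
    refine Finset.sum_congr rfl fun k _ => ?_
    rw [Matrix.conjTranspose_smul]
    simp
  rw [h1, Matrix.conjTranspose_conjTranspose]
  have h2 := hA (fun k => (starRingEnd ℂ) (x k))
  rw [← hT] at h2
  have h3 : ∑ k, ‖(starRingEnd ℂ) (x k)‖ ^ 2 = ∑ k, ‖x k‖ ^ 2 :=
    Finset.sum_congr rfl fun k _ => by rw [RCLike.norm_conj]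
  rw [h3] at h2
  set s : ℝ := ∑ k, ‖x k‖ ^ 2 with hs
  have hs0 : 0 ≤ s := Finset.sum_nonneg fun _ _ => by positivity
  rcases hs0.eq_or_lt with h4 | h4
  · have h5 : ∀ k, x k = 0 := by
      intro k
      have h6 := (Finset.sum_eq_zero_iff_of_nonneg
        (fun k _ => by positivity : ∀ k ∈ Finset.univ, 0 ≤ ‖x k‖ ^ 2)).1 h4.symm k
        (Finset.mem_univ k)
      exact norm_eq_zero.1 (pow_eq_zero_iff (two_ne_zero) |>.1 h6)
    have h6 : T = 0 := by
      rw [hT]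
      refine Finset.sum_eq_zero fun k _ => ?_
      rw [h5, map_zero, zero_smul]
    rw [← h4, h6]
    simp [Matrix.PosSemidef.zero]
  · have h5 : ((s : ℂ) • ((s : ℂ) • (1 : Matrix κ κ ℂ) - T * Tᴴ)) =
        ((s : ℂ) • (1 : Matrix κ κ ℂ) - T * Tᴴ)ᴴ * ((s : ℂ) • (1 : Matrix κ κ ℂ) - T * Tᴴ) +
        T * ((s : ℂ) • (1 : Matrix ι ι ℂ) - Tᴴ * T) * Tᴴ := by
      simp only [Matrix.conjTranspose_sub, Matrix.conjTranspose_smul, Matrix.conjTranspose_one,
        Matrix.conjTranspose_mul, Matrix.conjTranspose_conjTranspose, Matrix.mul_sub,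
        Matrix.sub_mul, Matrix.mul_smul, Matrix.smul_mul, Matrix.mul_one, Matrix.one_mul,
        Matrix.mul_assoc, smul_sub]
      have h6 : star (s : ℂ) = (s : ℂ) := Complex.conj_ofReal s
      rw [h6]
      abel
    have h6 : ((s : ℂ) • ((s : ℂ) • (1 : Matrix κ κ ℂ) - T * Tᴴ)).PosSemidef := by
      rw [h5]
      exact (Matrix.posSemidef_conjTranspose_mul_self _).add (h2.mul_mul_conjTranspose_same T)
    have h7 : ((s⁻¹ : ℝ) : ℂ) • ((s : ℂ) • ((s : ℂ) • (1 : Matrix κ κ ℂ) - T * Tᴴ)) =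
        (s : ℂ) • (1 : Matrix κ κ ℂ) - T * Tᴴ := by
      rw [smul_smul]
      have h8 : ((s⁻¹ : ℝ) : ℂ) * (s : ℂ) = 1 := by
        rw [← Complex.ofReal_mul, inv_mul_cancel₀ h4.ne', Complex.ofReal_one]
      rw [h8, one_smul]
    rw [← h7]
    refine h6.smul ?_
    have h9 : (0 : ℝ) ≤ s⁻¹ := (inv_pos.2 h4).le
    exact_mod_cast h9

end Pool.Agent.H16T
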