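import Pool.Agent.Lib.H16T.PE2
import Pool.Agent.Lib.H16T.PE3

/-! Chunk PE4 (M): existence of Perron pairs, reduction of (T1) to Perron pairs. -/

namespace Pool.Agent.H16T

open Matrix Pool.Agent.H25A
open scoped ComplexOrder

private theorem PE4_phi_compress {n : ℕ} {ι κ α β : Type*} [Fintype ι] [Fintype κ]
    [Fintype α] [Fintype β] (A : Fin n → Matrix κ ι ℂ) (V : Matrix ι α ℂ) (W : Matrix κ β ℂ)
    (X : Matrix α α ℂ) :
    phi (fun k => Wᴴ * A k * V) X = Wᴴ * phi A (V * X * Vᴴ) * W := by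
  unfold phi
  rw [Matrix.mul_sum, Matrix.sum_mul]
  refine Finset.sum_congr rfl fun k _ => ?_
  simp only [Matrix.conjTranspose_mul, Matrix.conjTranspose_conjTranspose, Matrix.mul_assoc]

private theorem PE4_phiT_compress {n : ℕ} {ι κ α β : Type*} [Fintype ι] [Fintype κ]
    [Fintype α] [Fintype β] (A : Fin n → Matrix κ ι ℂ) (V : Matrix ι α ℂ) (W : Matrix κ β ℂ)
    (Y : Matrix β β ℂ) :
    phiT (fun k => Wᴴ * A k * V) Y = Vᴴ * phiT A (W * Y * Wᴴ) * V := by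
  unfold phiT
  rw [Matrix.mul_sum, Matrix.sum_mul]
  refine Finset.sum_congr rfl fun k _ => ?_
  simp only [Matrix.conjTranspose_mul, Matrix.conjTranspose_conjTranspose, Matrix.mul_assoc]

private theorem PE4_rtr_compress {ι α : Type*} [Fintype ι] [Fintype α]
    {V : Matrix ι α ℂ} {X : Matrix ι ι ℂ} (h : V * (Vᴴ * X * V) * Vᴴ = X) :
    rtr ((Vᴴ * X * V) * (Vᴴ * X * V)) = rtr (X * X) := by
  unfold rtr
  have h1 : (Vᴴ * X * V) * (Vᴴ * X * V) = Vᴴ * (X * (V * (Vᴴ * X * V))) := by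
    simp only [Matrix.mul_assoc]
  rw [h1, Matrix.trace_mul_comm, Matrix.mul_assoc, h]

private theorem PE4_rtr_smul_smul {ι : Type*} [Fintype ι] (a : ℝ) (Z : Matrix ι ι ℂ) :
    rtr (((a : ℂ) • Z) * ((a : ℂ) • Z)) = a * a * rtr (Z * Z) := by
  have h : ((a : ℂ) • Z) * ((a : ℂ) • Z) = ((a * a : ℝ) : ℂ) • (Z * Z) := by
    rw [smul_mul_smul_comm]
    push_cast
    rfl
  rw [h]
  unfold rtr
  rw [Matrix.trace_smul, smul_eq_mul, Complex.re_ofReal_mul]

/-- PROOF. `X` from `PE2a` for the square tuple `C` (if `ι` is empty then `rtr (phi C H * phi C H) = 0`,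
contradiction), `L = rtr (phi C X * phi C X) ≥ rtr (phi C H * phi C H) / rtr (H * H) > c ≥ 0`,
`lam = √L`, `Y = lam⁻¹ • phi C X ≥ 0`.  By `PE2b` `phiT C Y = lam⁻¹ L X = lam X`, and
`rtr (Y * Y) = 1`, `phi C X = lam Y`.  Take `V` for `X` and `W` for `Y` from `PE3a` and
`A k = W^* C_k V`, `X_0 = V^* X V`, `X_0' = W^* Y W`: `phi A X_0 = W^* phi C (V X_0 V^*) W
= W^* phi C X W = lam X_0'`, the same for `phiT`; contractive by `PE3b`;
`rtr (X_0 * X_0) = rtr (V^* X V V^* X V) = rtr (X * V X_0 V^*) = rtr (X * X) = 1` etc. -/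
theorem PE4a {n : ℕ} {ι : Type} [Fintype ι] [DecidableEq ι] {C : Fin n → Matrix ι ι ℂ}
    (hC : Con C) {c : ℝ} (hc : 0 ≤ c) {H : Matrix ι ι ℂ} (hH : H.IsHermitian)
    (hlt : c * rtr (H * H) < rtr (phi C H * phi C H)) :
    ∃ (α : Type) (_ : Fintype α) (_ : DecidableEq α) (β : Type) (_ : Fintype β)
      (_ : DecidableEq β) (A : Fin n → Matrix β α ℂ) (X : Matrix α α ℂ) (X' : Matrix β β ℂ)
      (lam : ℝ), Perron A X X' lam ∧ c < lam ^ 2 := by
  rcases isEmpty_or_nonempty ι with he | hne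
  · exfalso
    have h1 : H = 0 := Subsingleton.elim _ _
    have h2 : phi C H = 0 := Subsingleton.elim _ _
    have h3 : rtr (0 : Matrix ι ι ℂ) = 0 := by
      unfold rtr
      simp
    rw [h2, h1, Matrix.mul_zero, h3, mul_zero] at hlt
    exact lt_irrefl _ hlt
  obtain ⟨X, hX, hX1, hmax⟩ := PE2a C
  obtain ⟨L, hL⟩ : ∃ L, L = rtr (phi C X * phi C X) := ⟨_, rfl⟩
  have heq := PE2b C hX.isHermitian hX1 hmax
  rw [← hL] at heq
  have hcL : c < L := by
    have h1 := hmax H hH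
    rw [← hL] at h1
    have h2 : 0 ≤ rtr (H * H) := by
      have := rtr_conjTranspose_mul_self_nonneg H
      rwa [hH.eq] at this
    by_contra hLc
    push Not at hLc
    have h3 : L * rtr (H * H) ≤ c * rtr (H * H) := mul_le_mul_of_nonneg_right hLc h2
    linarith
  have hL0 : 0 < L := lt_of_le_of_lt hc hcL
  obtain ⟨lam, hlam⟩ : ∃ lam, lam = Real.sqrt L := ⟨_, rfl⟩
  have hl0 : 0 < lam := hlam ▸ Real.sqrt_pos.2 hL0
  have hl2 : lam * lam = L := by
    rw [hlam]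
    exact Real.mul_self_sqrt hL0.le
  have hlC : (lam : ℂ) ≠ 0 := by exact_mod_cast hl0.ne'
  obtain ⟨Y, hY⟩ : ∃ Y, Y = ((lam⁻¹ : ℝ) : ℂ) • phi C X := ⟨_, rfl⟩
  have hphiP : (phi C X).PosSemidef := by
    unfold phi
    exact r1_pos C hX
  have hYP : Y.PosSemidef := by
    rw [hY]
    have h0 : (0 : ℂ) ≤ ((lam⁻¹ : ℝ) : ℂ) := by exact_mod_cast (inv_pos.2 hl0).le
    exact hphiP.smul h0
  have hphiX : phi C X = (lam : ℂ) • Y := by
    rw [hY, smul_smul]
    have : (lam : ℂ) * ((lam⁻¹ : ℝ) : ℂ) = 1 := by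
      push_cast
      exact mul_inv_cancel₀ hlC
    rw [this, one_smul]
  have hphiTY : phiT C Y = (lam : ℂ) • X := by
    have h1 : phiT C Y = ((lam⁻¹ : ℝ) : ℂ) • phiT C (phi C X) := by
      rw [hY]
      unfold phiT
      rw [Finset.smul_sum]
      refine Finset.sum_congr rfl fun k _ => ?_
      rw [Matrix.mul_smul, Matrix.smul_mul]
    rw [h1, heq, smul_smul]
    congr 1
    rw [← hl2]
    push_cast
    field_simp
  have hY1 : rtr (Y * Y) = 1 := by
    rw [hY, PE4_rtr_smul_smul, ← hL, ← hl2]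
    field_simp
  obtain ⟨α, i1, i2, V, hV, hVP, hVX⟩ := PE3a hX
  obtain ⟨β, i3, i4, W, hW, hWP, hWY⟩ := PE3a hYP
  refine ⟨α, i1, i2, β, i3, i4, fun k => Wᴴ * C k * V, Vᴴ * X * V, Wᴴ * Y * W, lam,
    ⟨?_, hVP, hWP, hl0, ?_, ?_, ?_, ?_⟩, ?_⟩
  · exact PE3b (A := C) hC hV hW
  · rw [PE4_phi_compress, hVX, hphiX, Matrix.mul_smul, Matrix.smul_mul]
  · rw [PE4_phiT_compress, hWY, hphiTY, Matrix.mul_smul, Matrix.smul_mul]
  · rw [PE4_rtr_compress hVX, hX1]
  · rw [PE4_rtr_compress hWY, hY1]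
  · rw [pow_two, hl2]
    exact hcL

/-- PROOF. By contradiction from `PE4a` (`T1Pos` unfolded; `phi C X` is the sum in `T1Pos`). -/
theorem PE4b {n : ℕ} {c : ℝ} (hc : 0 ≤ c)
    (hP : ∀ (α β : Type) [Fintype α] [DecidableEq α] [Fintype β] [DecidableEq β]
      (A : Fin n → Matrix β α ℂ) (X : Matrix α α ℂ) (X' : Matrix β β ℂ) (lam : ℝ),
      Perron A X X' lam → lam ^ 2 ≤ c) : T1Pos n c := by
  intro ι _ _ C hC X hX
  by_contra hlt
  push Not at hlt
  obtain ⟨α, i1, i2, β, i3, i4, A, Z, Z', lam, hPer, hcl⟩ := PE4a (H := X) hC hc hX.isHermitian hlt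
  have := hP α β A Z Z' lam hPer
  linarith

/-- The adjoint of a Perron pair is a Perron pair. -/
theorem PE4c {n : ℕ} {ι κ : Type*} [Fintype ι] [DecidableEq ι] [Fintype κ] [DecidableEq κ]
    {A : Fin n → Matrix κ ι ℂ} {X : Matrix ι ι ℂ} {X' : Matrix κ κ ℂ} {lam : ℝ}
    (h : Perron A X X' lam) : Perron (fun k => (A k)ᴴ) X' X lam := by
  refine ⟨PE3c h.con, h.posX', h.posX, h.pos, ?_, ?_, h.norm', h.norm⟩
  · have h1 : phi (fun k => (A k)ᴴ) X' = phiT A X' := by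
      unfold phi phiT
      simp only [Matrix.conjTranspose_conjTranspose]
    rw [h1, h.mapT]
  · have h1 : phiT (fun k => (A k)ᴴ) X = phi A X := by
      unfold phi phiT
      simp only [Matrix.conjTranspose_conjTranspose]
    rw [h1, h.map]

end Pool.Agent.H16T
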