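import Pool.Agent.Lib.H16T.RA

/-! The reduction, part B: two different families (as in H25A, any `n`). -/

namespace Pool.Agent.H16T

open Matrix Pool.Agent.H25A
open scoped ComplexOrder

variable {n : ℕ} {c : ℝ} {α β : Type} [Fintype α] [DecidableEq α] [Fintype β] [DecidableEq β]

omit [Fintype α] [DecidableEq α] [Fintype β] [DecidableEq β] in
theorem r2_sum {κ : Type*} (s : Finset κ) (A : κ → Matrix α α ℂ) (B : κ → Matrix α β ℂ)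
    (C : κ → Matrix β α ℂ) (D : κ → Matrix β β ℂ) :
    ∑ k ∈ s, fromBlocks (A k) (B k) (C k) (D k) =
      fromBlocks (∑ k ∈ s, A k) (∑ k ∈ s, B k) (∑ k ∈ s, C k) (∑ k ∈ s, D k) := by
  ext i j
  rcases i with i | i <;> rcases j with j | j <;>
    simp only [Matrix.sum_apply, fromBlocks_apply₁₁, fromBlocks_apply₁₂, fromBlocks_apply₂₁,
      fromBlocks_apply₂₂]

omit [DecidableEq α] [DecidableEq β] in
theorem r2_psd {P : Matrix α α ℂ} {Q : Matrix β β ℂ} (hP : P.PosSemidef) (hQ : Q.PosSemidef) :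
    (fromBlocks P 0 0 Q).PosSemidef := by
  refine PosSemidef.of_dotProduct_mulVec_nonneg ?_ fun x => ?_
  · show (fromBlocks P 0 0 Q)ᴴ = fromBlocks P 0 0 Q
    rw [fromBlocks_conjTranspose, hP.isHermitian.eq, hQ.isHermitian.eq, conjTranspose_zero,
      conjTranspose_zero]
  · have h1 := hP.dotProduct_mulVec_nonneg (x ∘ Sum.inl)
    have h2 := hQ.dotProduct_mulVec_nonneg (x ∘ Sum.inr)
    have h3 : star x ⬝ᵥ (fromBlocks P 0 0 Q *ᵥ x) =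
        star (x ∘ Sum.inl) ⬝ᵥ (P *ᵥ (x ∘ Sum.inl)) + star (x ∘ Sum.inr) ⬝ᵥ (Q *ᵥ (x ∘ Sum.inr)) := by
      rw [fromBlocks_mulVec]
      simp only [zero_mulVec, add_zero, zero_add]
      unfold dotProduct
      rw [Fintype.sum_sum_type]
      rfl
    rw [h3]
    exact add_nonneg h1 h2

theorem r2_con {u : Fin n → Matrix α α ℂ} (hu : Con u) {a : Fin n → Matrix β β ℂ}
    (ha : Con fun k => (a k)ᴴ) : Con fun k => fromBlocks (u k) 0 0 (a k)ᴴ := by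
  intro x
  have h1 := r2_psd (hu x) (ha x)
  have h2 : ∑ k, x k • fromBlocks (u k) (0 : Matrix α β ℂ) (0 : Matrix β α ℂ) (a k)ᴴ =
      fromBlocks (∑ k, x k • u k) 0 0 (∑ k, x k • (a k)ᴴ) := by
    have h3 : ∀ k, x k • fromBlocks (u k) (0 : Matrix α β ℂ) (0 : Matrix β α ℂ) (a k)ᴴ =
        fromBlocks (x k • u k) 0 0 (x k • (a k)ᴴ) := fun k => by
      rw [fromBlocks_smul, smul_zero, smul_zero]
    rw [Finset.sum_congr rfl fun k _ => h3 k, r2_sum, Finset.sum_const_zero, Finset.sum_const_zero]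
  have h4 : (1 : Matrix (α ⊕ β) (α ⊕ β) ℂ) = fromBlocks 1 0 0 1 := fromBlocks_one.symm
  have h5 : ((((∑ k, ‖x k‖ ^ 2 : ℝ) : ℂ) • (1 : Matrix (α ⊕ β) (α ⊕ β) ℂ)) -
      (∑ k, x k • fromBlocks (u k) (0 : Matrix α β ℂ) (0 : Matrix β α ℂ) (a k)ᴴ)ᴴ *
        (∑ k, x k • fromBlocks (u k) (0 : Matrix α β ℂ) (0 : Matrix β α ℂ) (a k)ᴴ)) =
      fromBlocks ((((∑ k, ‖x k‖ ^ 2 : ℝ) : ℂ) • (1 : Matrix α α ℂ)) -
        (∑ k, x k • u k)ᴴ * (∑ k, x k • u k)) 0 0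
        ((((∑ k, ‖x k‖ ^ 2 : ℝ) : ℂ) • (1 : Matrix β β ℂ)) -
        (∑ k, x k • (a k)ᴴ)ᴴ * (∑ k, x k • (a k)ᴴ)) := by
    rw [h2, h4, fromBlocks_conjTranspose, fromBlocks_multiply, fromBlocks_smul, sub_eq_add_neg,
      fromBlocks_neg, fromBlocks_add]
    simp [sub_eq_add_neg]
  rw [h5]
  exact h1

omit [DecidableEq α] [DecidableEq β] in
theorem r2_rtr (Z : Matrix α β ℂ) :
    rtr (fromBlocks 0 Z Zᴴ 0 * fromBlocks 0 Z Zᴴ 0) = 2 * rtr (Z * Zᴴ) := by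
  unfold rtr
  rw [fromBlocks_multiply]
  have h1 : ∀ (P : Matrix α α ℂ) (B : Matrix α β ℂ) (C : Matrix β α ℂ) (Q : Matrix β β ℂ),
      (fromBlocks P B C Q).trace = P.trace + Q.trace := fun P B C Q => by
    unfold trace
    rw [Fintype.sum_sum_type]
    rfl
  simp only [Matrix.zero_mul, Matrix.mul_zero, add_zero, zero_add]
  rw [h1, trace_mul_comm Zᴴ Z, Complex.add_re]
  ring

/-- `tr (Z Z^*) ≤ c tr (Ξ Ξ^*)` for `Z = ∑ u_k Ξ a_k`, `u` and `a^*` contractive.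
PROOF. In `Matrix (α ⊕ β) (α ⊕ β)` take `c_k = fromBlocks (u_k) 0 0 (a_k^*)` and
`H = fromBlocks 0 Ξ Ξ^* 0`.  `Con c`: `∑ x_k c_k` is block diagonal and a block diagonal matrix
is positive semidefinite iff the blocks are.  `c_k H c_k^* = fromBlocks 0 (u_k Ξ a_k)
(u_k Ξ a_k)^* 0`, so `∑_k c_k H c_k^* = fromBlocks 0 Z Z^* 0`, and
`tr (fromBlocks 0 Z Z^* 0)^2 = 2 tr (Z Z^*)` (`Matrix.fromBlocks_multiply`,
`Matrix.trace_fromBlocks`, cyclicity).  R1. -/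
theorem rect_le (hc : 0 ≤ c) (hT : T1Pos n c) {u : Fin n → Matrix α α ℂ} (hu : Con u) {a : Fin n → Matrix β β ℂ}
    (ha : Con fun k => (a k)ᴴ) (Ξ : Matrix α β ℂ) :
    rtr ((∑ k, u k * Ξ * a k) * (∑ k, u k * Ξ * a k)ᴴ) ≤ c * rtr (Ξ * Ξᴴ) := by
  have hH : (fromBlocks 0 Ξ Ξᴴ 0 : Matrix (α ⊕ β) (α ⊕ β) ℂ).IsHermitian := by
    show (fromBlocks 0 Ξ Ξᴴ 0 : Matrix (α ⊕ β) (α ⊕ β) ℂ)ᴴ = fromBlocks 0 Ξ Ξᴴ 0
    rw [fromBlocks_conjTranspose, conjTranspose_zero, conjTranspose_zero,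
      conjTranspose_conjTranspose]
  have h1 := phi_herm_le hc hT (r2_con hu ha) hH
  have h2 : ∀ k, fromBlocks (u k) 0 0 (a k)ᴴ * (fromBlocks 0 Ξ Ξᴴ 0 : Matrix (α ⊕ β) (α ⊕ β) ℂ) *
      (fromBlocks (u k) 0 0 (a k)ᴴ)ᴴ = fromBlocks 0 (u k * Ξ * a k) (u k * Ξ * a k)ᴴ 0 := fun k => by
    rw [fromBlocks_conjTranspose, fromBlocks_multiply, fromBlocks_multiply]
    simp only [conjTranspose_zero, conjTranspose_conjTranspose, Matrix.zero_mul, Matrix.mul_zero, add_zero,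
      zero_add, conjTranspose_mul, Matrix.mul_assoc]
  have h3 : ∑ k, fromBlocks (u k) 0 0 (a k)ᴴ * (fromBlocks 0 Ξ Ξᴴ 0 : Matrix (α ⊕ β) (α ⊕ β) ℂ) *
      (fromBlocks (u k) 0 0 (a k)ᴴ)ᴴ =
      fromBlocks 0 (∑ k, u k * Ξ * a k) (∑ k, u k * Ξ * a k)ᴴ 0 := by
    rw [Finset.sum_congr rfl fun k _ => h2 k, r2_sum, Finset.sum_const_zero, Finset.sum_const_zero,
      conjTranspose_sum]
  rw [h3, r2_rtr, r2_rtr] at h1
  linarith

end Pool.Agent.H16T
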