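import Pool.Agent.Lib.H16T.Defs2

/-! # THEOREM A: the chain inequality averaged over all orders, with inequality (I) -/

namespace Pool.Agent.H16T

open Matrix Pool.Agent.H25A
open scoped ComplexOrder

variable {ι : Type*} [Fintype ι] [DecidableEq ι] {n : ℕ}

theorem gG_herm {X : Matrix ι ι ℂ} (hX : X.IsHermitian) {N : Matrix ι ι ℂ × Matrix ι ι ℂ}
    (h1 : N.1.PosSemidef) : (gG X N).IsHermitian := by
  unfold gG Matrix.IsHermitian
  rw [Matrix.conjTranspose_mul, Matrix.conjTranspose_mul, h1.isHermitian.eq, hX.eq]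
  simp only [Matrix.mul_assoc]

/-- The operators `B_l`. -/
noncomputable def bb {X : Matrix ι ι ℂ} (N : Fin n → Matrix ι ι ℂ × Matrix ι ι ℂ)
    (hN : ∀ l, IsInst X (N l)) : Fin n → HM ι →ₗ[ℝ] HM ι :=
  fun l => bB (N l) (hN l).1 (hN l).2.1

/-- The vectors `G_l`. -/
noncomputable def gg {X : Matrix ι ι ℂ} (hX : X.IsHermitian)
    (N : Fin n → Matrix ι ι ℂ × Matrix ι ι ℂ)
    (hN : ∀ l, IsInst X (N l)) : Fin n → HM ι :=
  fun l => toHM (gG X (N l)) (gG_herm hX (hN l).1)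

theorem gsum_val {X : Matrix ι ι ℂ} (hX : X.IsHermitian)
    (N : Fin n → Matrix ι ι ℂ × Matrix ι ι ℂ) (hN : ∀ l, IsInst X (N l)) (L : List (Fin n)) :
    (H54I.gsum (gg hX N hN) L).val = ((L.map N).map (gG X)).sum := by
  induction L with
  | nil => rfl
  | cons l L ih =>
    simp only [H54I.gsum, HM.val_add, ih, List.map_cons, List.sum_cons]
    rfl

theorem xst_val {X : Matrix ι ι ℂ} (hX : X.IsHermitian)
    (N : Fin n → Matrix ι ι ℂ × Matrix ι ι ℂ) (hN : ∀ l, IsInst X (N l)) (L : List (Fin n)) :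
    (H54I.xst (bb N hN) (gg hX N hN) L).val =
      ((L.map N).map (gG X)).sum - msum X (L.map N) := by
  induction L with
  | nil => simp [H54I.xst, msum]
  | cons l L ih =>
    have hg := gsum_val hX N hN L
    simp only [H54I.xst, HM.val_add, HM.val_sub, ih, List.map_cons, List.sum_cons, msum, bb,
      bB_val, hg, theta_sub]
    abel

theorem fst_eq {X : Matrix ι ι ℂ} (hX : X.IsHermitian)
    (N : Fin n → Matrix ι ι ℂ × Matrix ι ι ℂ) (hN : ∀ l, IsInst X (N l)) (L : List (Fin n)) :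
    H54I.Fst (bb N hN) (gg hX N hN) L = fF X (L.map N) := by
  induction L with
  | nil => rfl
  | cons l L ih =>
    simp only [H54I.Fst, ih, List.map_cons, fF, HM.inner_eq, xst_val]
    have : (gg hX N hN l).val = gG X (N l) := rfl
    rw [this, rtr_mul_comm]
    ring

theorem list_sum_univ {M : Type*} [AddCommMonoid M] {L : List (Fin n)} (hL : L.Nodup)
    (hU : L.toFinset = Finset.univ) (f : Fin n → M) : (L.map f).sum = ∑ l, f l := by
  rw [← hU, List.sum_toFinset _ hL]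

/-- The chain inequality averaged over all orders. -/
theorem chain_avg {X : Matrix ι ι ℂ} (hX : X.PosSemidef) (k : ℤ)
    (N : Fin n → Matrix ι ι ℂ × Matrix ι ι ℂ) (hN : ∀ l, IsInst X (N l)) :
    (2 * k + 1) * rtr (X * ∑ l, gG X (N l)) - rtr ((∑ l, gG X (N l)) * ∑ l, gG X (N l)) -
        (k : ℝ) * (k + 1) * rtr (X * X) ≤
      (∑ l, (rtr (X * gG X (N l)) - rtr (gG X (N l) * gG X (N l)))) +
        H54I.Fb (bb N hN) (gg hX.isHermitian N hN) Finset.univ := by
  set S := ∑ l, (rtr (X * gG X (N l)) - rtr (gG X (N l) * gG X (N l))) with hS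
  set D := (2 * k + 1) * rtr (X * ∑ l, gG X (N l)) - rtr ((∑ l, gG X (N l)) * ∑ l, gG X (N l)) -
        (k : ℝ) * (k + 1) * rtr (X * X) with hD
  have key : ∀ L : List (Fin n), L.Nodup → L.toFinset = Finset.univ →
      D - S ≤ H54I.Fst (bb N hN) (gg hX.isHermitian N hN) L := by
    intro L hL hU
    have h1 : ((L.map N).map (gG X)).sum = ∑ l, gG X (N l) := by
      rw [List.map_map]
      exact list_sum_univ hL hU _
    have h2 := chain_fF hX k (L := L.map N) (by
      intro a ha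
      obtain ⟨l, _, rfl⟩ := List.mem_map.mp ha
      exact hN l) h1
    rw [List.map_map] at h2
    have h3 := list_sum_univ hL hU (fun l => rtr (X * gG X (N l)) - rtr (gG X (N l) * gG X (N l)))
    have h4 : (L.map ((fun a => rtr (X * gG X a) - rtr (gG X a * gG X a)) ∘ N)).sum = S := h3
    rw [h4] at h2
    rw [fst_eq]
    linarith
  have h5 := H54I.A1c n Finset.univ (by simp) (fun _ => D - S) _ key
  rw [H54I.A1e n Finset.univ (by simp)] at h5
  have h6 : H54I.Fb (bb N hN) (gg hX.isHermitian N hN) Finset.univ =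
      H54I.avg n Finset.univ (H54I.Fst (bb N hN) (gg hX.isHermitian N hN)) := by
    unfold H54I.Fb
    simp
  rw [h6]
  linarith

theorem bb_symm {X : Matrix ι ι ℂ} (N : Fin n → Matrix ι ι ℂ × Matrix ι ι ℂ)
    (hN : ∀ l, IsInst X (N l)) (l : Fin n) (x y : HM ι) :
    inner ℝ (bb N hN l x) y = inner ℝ x (bb N hN l y) := by
  simp only [HM.inner_eq, bb, bB_val, Matrix.sub_mul, Matrix.mul_sub, rtr_sub, theta_symm]

theorem bb_nonneg {X : Matrix ι ι ℂ} (hX : X.PosDef) (N : Fin n → Matrix ι ι ℂ × Matrix ι ι ℂ)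
    (hN : ∀ l, IsInst X (N l)) (l : Fin n) (x : HM ι) :
    0 ≤ inner ℝ x (bb N hN l x) := by
  simp only [HM.inner_eq, bb, bB_val, Matrix.mul_sub, rtr_sub]
  have := theta_le hX (hN l) x.herm
  linarith

theorem bb_sq_le {X : Matrix ι ι ℂ} (hX : X.PosDef) (N : Fin n → Matrix ι ι ℂ × Matrix ι ι ℂ)
    (hN : ∀ l, IsInst X (N l)) (l : Fin n) (x : HM ι) :
    ‖bb N hN l x‖ ^ 2 ≤ inner ℝ x (bb N hN l x) := by
  rw [← real_inner_self_eq_norm_sq]
  simp only [HM.inner_eq, bb, bB_val]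
  obtain ⟨h1, h0, hT⟩ := hN l
  set Y := x.val with hY
  set Z := theta (N l) Y with hZ
  have hYh : Y.IsHermitian := x.herm
  have hZh : Z.IsHermitian := theta_herm h1 h0 hYh
  have e1 : rtr (Z * theta (N l) Z) ≤ rtr (Z * Z) := theta_le hX (hN l) hZh
  have e2 : 0 ≤ rtr ((Y - Z) * theta (N l) (Y - Z)) := theta_nonneg h1 h0 (hYh.sub hZh)
  have e3 : rtr (Y * theta (N l) Z) = rtr (Z * Z) := by rw [← theta_symm]
  have e4 : rtr (Z * Y) = rtr (Y * Z) := rtr_mul_comm _ _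
  simp only [theta_sub, Matrix.sub_mul, Matrix.mul_sub, rtr_sub] at e2 ⊢
  rw [← hZ] at e2
  rw [e3] at e2
  linarith

/-- THEOREM A (simple form): for `X > 0`, any instruments, any chord `k`,
`(2k+1) tr XP - tr PP - k(k+1) tr XX ≤ ∑ (tr X G_l - tr G_l G_l) + (W + S/2)/3`. -/
theorem thmA {X : Matrix ι ι ℂ} (hX : X.PosDef) (k : ℤ)
    (N : Fin n → Matrix ι ι ℂ × Matrix ι ι ℂ) (hN : ∀ l, IsInst X (N l)) :
    (2 * k + 1) * rtr (X * ∑ l, gG X (N l)) - rtr ((∑ l, gG X (N l)) * ∑ l, gG X (N l)) -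
        (k : ℝ) * (k + 1) * rtr (X * X) ≤
      (∑ l, (rtr (X * gG X (N l)) - rtr (gG X (N l) * gG X (N l)))) +
        (1 / 3) * (H54I.WW (bb N hN) (gg hX.isHermitian N hN) +
          (1 / 2) * H54I.SS (bb N hN) (gg hX.isHermitian N hN)) := by
  have h1 := chain_avg hX.posSemidef k N hN
  have h2 := H54I.M2c (bb N hN) (bb_symm N hN) (bb_nonneg hX N hN) (bb_sq_le hX N hN)
    (gg hX.isHermitian N hN)
  linarith

/-- THEOREM A (sharp form), `w + ∑ B_l w = Q`. -/
theorem thmA_sharp {X : Matrix ι ι ℂ} (hX : X.PosDef) (k : ℤ)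
    (N : Fin n → Matrix ι ι ℂ × Matrix ι ι ℂ) (hN : ∀ l, IsInst X (N l)) :
    ∃ w : HM ι, w + ∑ l, bb N hN l w = H54I.QQ (bb N hN) (gg hX.isHermitian N hN) ∧
    (2 * k + 1) * rtr (X * ∑ l, gG X (N l)) - rtr ((∑ l, gG X (N l)) * ∑ l, gG X (N l)) -
        (k : ℝ) * (k + 1) * rtr (X * X) ≤
      (∑ l, (rtr (X * gG X (N l)) - rtr (gG X (N l) * gG X (N l)))) +
        (1 / 3) * (H54I.WW (bb N hN) (gg hX.isHermitian N hN) -
          H54I.PP (bb N hN) (gg hX.isHermitian N hN) +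
          (1 / 2) * H54I.SS (bb N hN) (gg hX.isHermitian N hN) +
          inner ℝ (H54I.QQ (bb N hN) (gg hX.isHermitian N hN)) w) := by
  set T : HM ι →ₗ[ℝ] HM ι := LinearMap.id + ∑ l, bb N hN l with hT
  have hTx : ∀ x, T x = x + ∑ l, bb N hN l x := by
    intro x
    simp [hT, LinearMap.sum_apply]
  have hinj : Function.Injective T := by
    rw [injective_iff_map_eq_zero]
    intro x hx
    rw [hTx] at hx
    have h1 : inner ℝ x (x + ∑ l, bb N hN l x) = 0 := by rw [hx, inner_zero_right]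
    rw [inner_add_right, inner_sum, real_inner_self_eq_norm_sq] at h1
    have h2 : 0 ≤ ∑ l, inner ℝ x (bb N hN l x) :=
      Finset.sum_nonneg fun l _ => bb_nonneg hX N hN l x
    have h3 : ‖x‖ ^ 2 = 0 := le_antisymm (by linarith) (sq_nonneg _)
    exact norm_eq_zero.mp (pow_eq_zero_iff two_ne_zero |>.mp h3)
  have hsurj := LinearMap.injective_iff_surjective.mp hinj
  obtain ⟨w, hw⟩ := hsurj (H54I.QQ (bb N hN) (gg hX.isHermitian N hN))
  obtain ⟨v, hv⟩ := hsurj w
  rw [hTx] at hw hv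
  refine ⟨w, hw, ?_⟩
  have h1 := chain_avg hX.posSemidef k N hN
  have h2 := H54I.M2a (bb N hN) (bb_symm N hN) (bb_nonneg hX N hN) (bb_sq_le hX N hN)
    (gg hX.isHermitian N hN) w v hw hv
  linarith

end Pool.Agent.H16T
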